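import Mathlib

/-!
Project TI (helper95): there is c > 0 such that for at least c x / log^2 x primes p <= x all prime
factors of p + 2 are = 1 mod 6 and at least x^c (three of the four sign patterns of 6xy +- x +- y
are avoided; half-dimensional sieve + switching).
Exact statements; every task proves one of the Props below, assuming (as hypotheses) the Props named
in its title.
-/

set_option autoImplicit false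

open Finset Filter

namespace Pool.Agent.H95R2.TI

open scoped Classical

/-- primes p = 5 mod 6 with w <= p < u -/
noncomputable def PP5 (w u : ℝ) : Finset ℕ :=
  (range ⌈u⌉₊).filter (fun p : ℕ => p.Prime ∧ p % 6 = 5 ∧ w ≤ (p : ℝ))

/-- primes p = 1 mod 6 with w <= p < u -/
noncomputable def PP1 (w u : ℝ) : Finset ℕ :=
  (range ⌈u⌉₊).filter (fun p : ℕ => p.Prime ∧ p % 6 = 1 ∧ w ≤ (p : ℝ))

/-- primes 5 <= p < w -/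
noncomputable def SP (w : ℝ) : Finset ℕ := (range ⌈w⌉₊).filter (fun p : ℕ => p.Prime ∧ 5 ≤ p)

/-- all primes p < w -/
noncomputable def AP (w : ℝ) : Finset ℕ := (range ⌈w⌉₊).filter (fun p : ℕ => p.Prime)

/-- V0(w) = product over primes 5 <= p < w of (1 - 1/(p-1)) -/
noncomputable def V0 (w : ℝ) : ℝ := ∏ p ∈ SP w, (1 - 1 / ((p : ℝ) - 1))

/-- the singular series, cut at w -/
noncomputable def SG (w : ℝ) : ℝ := ∏ p ∈ SP w, ((p : ℝ) * (p - 2) / (p - 1) ^ 2)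

/-- Mertens product -/
noncomputable def VM (w : ℝ) : ℝ := ∏ p ∈ AP w, (1 - 1 / (p : ℝ))

/-- primes p = 5 mod 6, p <= x, such that all prime factors of p + 2 are >= w -/
noncomputable def AA (x w : ℝ) : Finset ℕ :=
  (Icc 1 ⌊x⌋₊).filter
    (fun p : ℕ => p.Prime ∧ p % 6 = 5 ∧ ∀ r : ℕ, r.Prime → r ∣ p + 2 → w ≤ (r : ℝ))

/-- the members of AA with d | p + 2 and no prime factor = 5 mod 6 of p + 2 in [w,u) -/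
noncomputable def SS (x w : ℝ) (d : ℕ) (u : ℝ) : ℝ :=
    (((AA x w).filter (fun p : ℕ => d ∣ p + 2 ∧ ∀ q ∈ PP5 w u, ¬ q ∣ p + 2)).card : ℝ)

/-- squarefree e <= y, all prime factors = 5 mod 6 and in [w,u) -/
noncomputable def QQ (w u y : ℝ) : Finset ℕ :=
  (Icc 1 ⌊y⌋₊).filter
    (fun e : ℕ => Squarefree e ∧ ∀ p : ℕ, p.Prime → p ∣ e → p % 6 = 5 ∧ w ≤ (p : ℝ) ∧ (p : ℝ) < u)

/-- squarefree e <= y, all prime factors >= w -/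
noncomputable def DD (w y : ℝ) : Finset ℕ :=
  (Icc 1 ⌊y⌋₊).filter
    (fun e : ℕ => Squarefree e ∧ ∀ p : ℕ, p.Prime → p ∣ e → w ≤ (p : ℝ))

/-- the constants -/
noncomputable def cA : ℝ := 1.13 * Real.sqrt 2.02

/-- upper function F* -/
noncomputable def FS (s : ℝ) : ℝ :=
  if s ≤ 2.02 then cA / Real.sqrt s else 1 + 0.13 * Real.exp (-2 * (s - 2.02))

/-- log(sqrt s + sqrt(s-1)) -/
noncomputable def Lg (s : ℝ) : ℝ := Real.log (Real.sqrt s + Real.sqrt (s - 1))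

/-- lower function f* -/
noncomputable def fS (s : ℝ) : ℝ :=
  if s ≤ 3 then (Real.sqrt 3 * (1 - 0.013) - cA * (Lg 3 - Lg s)) / Real.sqrt s
  else 1 - 0.013 * Real.exp (-2 * (s - 3))

/-- the two functions of the half-dimensional sieve (beta = 1.02): (T^+, T^-), with fuel n -/
noncomputable def TT (w : ℝ) : ℕ → (ℝ → ℝ → ℝ) × (ℝ → ℝ → ℝ)
  | 0 => (fun _ _ => 1, fun _ _ => 0)
  | n + 1 =>
    (fun y u => 1 - ∑ p ∈ (PP5 w u).filter (fun p : ℕ => (p : ℝ) ^ (2.02 : ℝ) < y),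
        (TT w n).2 (y / p) p / ((p : ℝ) - 1),
     fun y u => 1 - ∑ p ∈ PP5 w u, (TT w n).1 (y / p) p / ((p : ℝ) - 1))

/-- Selberg's function of the pair sieve for q and kq - 2 -/
noncomputable def hk (k p : ℕ) : ℝ := if p ∣ k then 1 / ((p : ℝ) - 1) else 2 / ((p : ℝ) - 2)

/-- Selberg's sum -/
noncomputable def JJ (k : ℕ) (R : ℝ) : ℝ :=
  ∑ l ∈ (Icc 1 ⌊R⌋₊).filter (fun l : ℕ => Squarefree l ∧ Nat.Coprime l 6), ∏ p ∈ l.primeFactors, hk k p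

/-- number of primes q = 5 mod 6, q <= y, with kq - 2 prime -/
noncomputable def PC (k : ℕ) (y : ℝ) : ℝ :=
  (((Icc 1 ⌊y⌋₊).filter (fun q : ℕ => q.Prime ∧ q % 6 = 5 ∧ (k * q - 2).Prime)).card : ℝ)

/-- the numbers k = q D, q = 5 mod 6 prime, q >= x^0.48, q k <= x + 2, D composed of primes = 1 mod 6
which are at least w -/
def InK (x w : ℝ) (k : ℕ) : Prop := ∃ q D : ℕ, k = q * D ∧ q.Prime ∧ q % 6 = 5 ∧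
  x ^ (0.48 : ℝ) ≤ (q : ℝ) ∧ ((q * k : ℕ) : ℝ) ≤ x + 2 ∧ 0 < D ∧
  ∀ r : ℕ, r.Prime → r ∣ D → r % 6 = 1 ∧ w ≤ (r : ℝ)

noncomputable def KK (x w : ℝ) : Finset ℕ :=
  (Icc 1 ⌊x + 2⌋₊).filter (fun k : ℕ => InK x w k)

/-! ## The statements -/

/-- A1. Mertens for the two classes mod 6 -/
def MERT : Prop := ∀ M : ℝ, 1 ≤ M → ∀ ε : ℝ, 0 < ε → ∀ᶠ w : ℝ in atTop, ∀ U : ℝ, 1 ≤ U → U ≤ M →
  |∑ p ∈ PP5 w (w ^ U), 1 / ((p : ℝ) - 1) - Real.log U / 2| ≤ ε ∧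
  |∑ p ∈ PP1 w (w ^ U), 1 / ((p : ℝ) - 1) - Real.log U / 2| ≤ ε

/-- A2. equidistribution on the logarithmic scale (from MERT) -/
def EQD : Prop := ∀ M L ε : ℝ, 1 ≤ M → 0 ≤ L → 0 < ε → ∀ᶠ w : ℝ in atTop,
  ∀ U : ℝ, 1 ≤ U → U ≤ M → ∀ φ : ℝ → ℝ,
    (∀ s ∈ Set.Icc 1 U, ∀ t ∈ Set.Icc 1 U, |φ s - φ t| ≤ L * |s - t|) →
    (∀ t ∈ Set.Icc 1 U, |φ t| ≤ L) →
    |∑ p ∈ PP5 w (w ^ U), φ (Real.log p / Real.log w) / ((p : ℝ) - 1) -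
      (∫ t in (1 : ℝ)..U, φ t / t) / 2| ≤ ε

/-- A3. Mertens' third theorem, as an inequality (gamma < 2/3) -/
def VML : Prop := ∀ᶠ w : ℝ in atTop, 0.513 ≤ VM w * Real.log w

/-- A4. PNT (lower bound) -/
def PNTL : Prop := ∀ ε : ℝ, 0 < ε → ∀ᶠ x : ℝ in atTop,
  (1 - ε) * (x / Real.log x) ≤ (Nat.primeCounting ⌊x⌋₊ : ℝ)

/-- B1. the fundamental lemma for one d; total error of the sets d e -/
def BASE1 : Prop := ∃ C : ℕ, 1 ≤ C ∧ ∃ z0 : ℕ, ∀ b : ℕ, C ≤ b → ∀ (x w : ℝ), (z0 : ℝ) ≤ w → w ≤ x →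
  ∀ d : ℕ, 0 < d → Nat.Coprime d 6 → (∀ p : ℕ, p.Prime → p ∣ d → w ≤ (p : ℝ)) →
    |SS x w d w - (Nat.primeCounting ⌊x⌋₊ : ℝ) / 2 * V0 w / (Nat.totient d : ℝ)| ≤
      (1 / 2 : ℝ) ^ b * ((Nat.primeCounting ⌊x⌋₊ : ℝ) / 2 * V0 w / (Nat.totient d : ℝ)) +
      (Real.log x + C) * ∑ e ∈ (Icc 1 ⌊C * w ^ (C * b : ℝ)⌋₊).filter
        (fun e : ℕ => Squarefree e ∧ ∀ p : ℕ, p.Prime → p ∣ e → 5 ≤ p ∧ (p : ℝ) < w),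
        |(((Icc 1 ⌊x⌋₊).filter (fun p : ℕ => p.Prime ∧ p % 6 = 5 ∧ d * e ∣ p + 2)).card : ℝ) -
          (Nat.primeCounting ⌊x⌋₊ : ℝ) / 2 / (Nat.totient (d * e) : ℝ)|

/-- B2. the base of the sieve, on average over d (from BASE1 and Bombieri-Vinogradov) -/
def BASE : Prop := ∀ ε : ℝ, 0 < ε → ∃ c1 : ℝ, 0 < c1 ∧ ∀ c : ℝ, 0 < c → c ≤ c1 →
  ∀ᶠ x : ℝ in atTop,
    ∑ d ∈ DD (x ^ c) (x ^ (0.498 : ℝ)), |SS x (x ^ c) d (x ^ c) -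
      (Nat.primeCounting ⌊x⌋₊ : ℝ) / 2 * V0 (x ^ c) / (Nat.totient d : ℝ)| ≤
      ε * c * (x / Real.log x) * V0 (x ^ c)

/-- B3. Buchstab's identity -/
def BUCH : Prop := ∀ (x w : ℝ), 5 < w → ∀ (d : ℕ) (u : ℝ), 0 < d → w ≤ u →
  (∀ p : ℕ, p.Prime → p ∣ d → u ≤ (p : ℝ)) →
  SS x w d u = SS x w d w - ∑ p ∈ PP5 w u, SS x w (d * p) p

/-- B4. the combinatorial part of the sieve -/
def REC : Prop := ∀ (w : ℝ) (S : ℕ → ℝ → ℝ) (A0 : ℝ), 5 < w → 0 ≤ A0 → (∀ d u, 0 ≤ S d u) →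
  (∀ (d : ℕ) (u : ℝ), 0 < d → w ≤ u → (∀ p : ℕ, p.Prime → p ∣ d → u ≤ (p : ℝ)) →
    S d u = S d w - ∑ p ∈ PP5 w u, S (d * p) p) →
  ∀ (n d : ℕ) (y u : ℝ), 0 < d → (∀ p : ℕ, p.Prime → p ∣ d → u ≤ (p : ℝ)) → w ≤ u → 1 ≤ y →
    S d u ≤ A0 / (Nat.totient d : ℝ) * (TT w n).1 y u +
      ∑ e ∈ QQ w u y, |S (d * e) w - A0 / (Nat.totient (d * e) : ℝ)| ∧
    (u ^ (1.02 : ℝ) ≤ y →
      A0 / (Nat.totient d : ℝ) * (TT w n).2 y u -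
        ∑ e ∈ QQ w u y, |S (d * e) w - A0 / (Nat.totient (d * e) : ℝ)| ≤ S d u)

/-- C1. integral inequality for f* -/
def II1 : Prop := ∀ Y U : ℝ, 1 ≤ U → 1.02 * U ≤ Y →
  (Real.sqrt U)⁻¹ * fS (Y / U) ≤
    1 - (∫ t in (1 : ℝ)..U, (Real.sqrt t)⁻¹ * FS ((Y - t) / t) / t) / 2

/-- C2. integral inequality for F* -/
def II2 : Prop := ∀ Y U : ℝ, 1 ≤ U → 2.02 * U ≤ Y →
  1 - (∫ t in (1 : ℝ)..U, (Real.sqrt t)⁻¹ * fS ((Y - t) / t) / t) / 2 ≤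
    (Real.sqrt U)⁻¹ * FS (Y / U)

/-- C3. numerical inequality behind II1 on [3, infinity) -/
def NU1 : Prop := ∀ s : ℝ, 3 ≤ s → FS (s - 1) ≤ 1 + 0.013 * Real.exp (-2 * (s - 3)) * (4 * s - 1)

/-- C4. numerical inequality behind II2 on [2.02, 4] -/
def NU2 : Prop := ∀ s : ℝ, 2.02 ≤ s → s ≤ 4 →
  1 - fS (s - 1) ≤ 0.13 * Real.exp (-2 * (s - 2.02)) * (4 * s - 1)

/-- C5. numerical inequality behind II2 on [4, infinity) -/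
def NU3 : Prop := ∀ s : ℝ, 4 ≤ s →
  1 - fS (s - 1) ≤ 0.13 * Real.exp (-2 * (s - 2.02)) * (4 * s - 1)

/-- C6. the value of f* at the top -/
def TOPN : Prop := 0.174 ≤ fS (0.498 / 0.48)

/-- C7. Lipschitz bounds -/
def LIP : Prop := ∀ M : ℝ, 1 ≤ M → ∃ L : ℝ, 0 ≤ L ∧ ∀ Y U : ℝ, 1 ≤ U → Y ≤ M →
  (1.02 * U ≤ Y →
    (∀ s ∈ Set.Icc 1 U, ∀ t ∈ Set.Icc 1 U,
      |(Real.sqrt s)⁻¹ * FS ((Y - s) / s) - (Real.sqrt t)⁻¹ * FS ((Y - t) / t)| ≤ L * |s - t|) ∧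
    (∀ t ∈ Set.Icc 1 U, |(Real.sqrt t)⁻¹ * FS ((Y - t) / t)| ≤ L)) ∧
  (2.02 * U ≤ Y →
    (∀ s ∈ Set.Icc 1 U, ∀ t ∈ Set.Icc 1 U,
      |(Real.sqrt s)⁻¹ * fS ((Y - s) / s) - (Real.sqrt t)⁻¹ * fS ((Y - t) / t)| ≤ L * |s - t|) ∧
    (∀ t ∈ Set.Icc 1 U, |(Real.sqrt t)⁻¹ * fS ((Y - t) / t)| ≤ L))

/-- C8. the analytic part of the sieve -/
def ANA : Prop := ∀ (M : ℝ) (n : ℕ) (ε : ℝ), 1 ≤ M → 0 < ε → ∀ᶠ w : ℝ in atTop,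
  ∀ y u : ℝ, w ≤ u → u ≤ w ^ M → 1 < y → y ≤ w ^ ((n : ℝ) + 1) →
    (TT w n).1 y u ≤
      Real.sqrt (Real.log w / Real.log u) * FS (Real.log y / Real.log u) + ε ∧
    (u ^ (1.02 : ℝ) ≤ y →
      Real.sqrt (Real.log w / Real.log u) * fS (Real.log y / Real.log u) - ε ≤ (TT w n).2 y u)

/-- D1. the lower bound sieve -/
def LOW : Prop := ∀ ε : ℝ, 0 < ε → ∃ c1 : ℝ, 0 < c1 ∧ ∀ c : ℝ, 0 < c → c ≤ c1 →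
  ∀ᶠ x : ℝ in atTop,
    SG (x ^ c) * (x / Real.log x ^ 2) * ((0.193 - ε) / Real.sqrt c) ≤
      SS x (x ^ c) 1 (x ^ (0.48 : ℝ))

/-- E1. rough numbers: lower bound for the sum of 1/(ab) -/
def ROU : Prop := ∀ T w : ℝ, 1 ≤ T → 2 ≤ w →
  Real.log T ^ 2 / 2 * VM w ^ 2 ≤
    ∑ l ∈ (Icc 1 ⌊T⌋₊).filter (fun l : ℕ => ∀ p ∈ AP w, ¬ p ∣ l), (l.divisors.card : ℝ) / l

/-- E2. smooth numbers: Rankin's trick -/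
def RNK : Prop := ∀ ε : ℝ, 0 < ε → ∃ S : ℝ, 0 < S ∧ ∀ᶠ w : ℝ in atTop,
  (1 - ε) * ∏ p ∈ SP w, (1 + 2 / ((p : ℝ) - 2)) ≤
    ∑ l ∈ (∏ p ∈ SP w, p).divisors.filter (fun l : ℕ => (l : ℝ) ≤ w ^ S),
      ∏ p ∈ l.primeFactors, (2 / ((p : ℝ) - 2))

/-- E3. lower bound for Selberg's sum -/
def JLOW : Prop := ∀ ε : ℝ, 0 < ε → ∃ c1 : ℝ, 0 < c1 ∧ ∀ c : ℝ, 0 < c → c ≤ c1 →
  ∀ᶠ x : ℝ in atTop, ∀ (k : ℕ) (R : ℝ), 0 < k → (k : ℝ) ≤ x →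
    (∀ p : ℕ, p.Prime → p ∣ k → x ^ c ≤ (p : ℝ)) → x ^ (0.2 : ℝ) ≤ R → R ≤ x →
    (1 - ε) * (∏ p ∈ SP (x ^ c), (1 + 2 / ((p : ℝ) - 2))) * (Real.log R ^ 2 / 2) * VM (x ^ c) ^ 2 ≤
      JJ k R

/-- E4. Selberg's sieve for q and kq - 2 -/
def SELB : Prop := ∀ η : ℝ, 0 < η → ∃ C : ℝ, 0 < C ∧ ∀ (k : ℕ) (y R : ℝ), k % 6 = 5 → 1 ≤ R →
  1 ≤ y → PC k y ≤ R + 1 + (y / 6 + 1) / JJ k R + C * R ^ (2 + η)

/-- E5. upper bound for one k -/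
def PAIR : Prop := ∀ ε : ℝ, 0 < ε → ∃ c1 : ℝ, 0 < c1 ∧ ∀ c : ℝ, 0 < c → c ≤ c1 →
  ∀ᶠ x : ℝ in atTop, ∀ k : ℕ, k % 6 = 5 → (k : ℝ) ≤ x ^ (0.53 : ℝ) →
    (∀ p : ℕ, p.Prime → p ∣ k → x ^ c ≤ (p : ℝ)) →
    PC k ((x + 2) / k) ≤ (12 + ε) * SG (x ^ c) * (x / k) / Real.log (x / k) ^ 2

/-- F1. integers composed of primes = 1 mod 6 -/
def WBD : Prop := ∀ ε : ℝ, 0 < ε → ∀ c : ℝ, 0 < c → c < 1 → ∀ᶠ x : ℝ in atTop,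
  ∀ t : ℝ, c ≤ t → t ≤ 1 →
    ∏ p ∈ PP1 (x ^ c) (x ^ t), (1 - 1 / (p : ℝ))⁻¹ ≤ (1 + ε) * Real.sqrt (t / c)

/-- F2. the sum over k -/
def KSUM : Prop := ∃ c1 : ℝ, 0 < c1 ∧ ∀ c : ℝ, 0 < c → c ≤ c1 → ∀ᶠ x : ℝ in atTop,
  ∑ k ∈ KK x (x ^ c), (1 : ℝ) / k ≤ 0.0031 / Real.sqrt c

/-- F3. parity: the exceptional primes come from K -/
def PAR : Prop := ∀ x w : ℝ, 8 ≤ x → 5 < w → w ≤ x ^ (0.48 : ℝ) → ∀ p : ℕ, p ∈ AA x w →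
  (∀ q ∈ PP5 w (x ^ (0.48 : ℝ)), ¬ q ∣ p + 2) →
  (∀ r : ℕ, r.Prime → r ∣ p + 2 → r % 6 = 1) ∨
  ∃ k ∈ KK x w, k % 6 = 5 ∧ (∀ r : ℕ, r.Prime → r ∣ k → w ≤ (r : ℝ)) ∧
    ∃ q : ℕ, q.Prime ∧ q % 6 = 5 ∧ k * q = p + 2

/-- F4. upper bound for the exceptional primes -/
def BAD : Prop := ∀ ε : ℝ, 0 < ε → ∃ c1 : ℝ, 0 < c1 ∧ ∀ c : ℝ, 0 < c → c ≤ c1 →
  ∀ᶠ x : ℝ in atTop,
    SS x (x ^ c) 1 (x ^ (0.48 : ℝ)) ≤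
      (((Icc 1 ⌊x⌋₊).filter (fun p : ℕ => p.Prime ∧ p % 6 = 5 ∧
        ∀ r ∈ (p + 2).primeFactors, r % 6 = 1 ∧ x ^ c ≤ (r : ℝ))).card : ℝ) +
      SG (x ^ c) * (x / Real.log x ^ 2) * ((0.1616 + ε) / Real.sqrt c)

/-- G1. Theorem TI -/
def MAIN : Prop := ∃ c : ℝ, 0 < c ∧ ∀ᶠ x : ℝ in atTop,
  c * (x / Real.log x ^ 2) ≤
    (((Icc 1 ⌊x⌋₊).filter (fun p : ℕ => p.Prime ∧ p % 6 = 5 ∧
      ∀ r ∈ (p + 2).primeFactors, r % 6 = 1 ∧ x ^ c ≤ (r : ℝ))).card : ℝ)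

/-- G2. the same for the forms 6xy +- x +- y -/
def FORMS : Prop := ∃ c : ℝ, 0 < c ∧ ∃ N0 : ℕ, ∀ N : ℕ, N0 ≤ N →
  c * (N / Real.log N ^ 2) ≤
    (((Icc 1 N).filter (fun n : ℕ => (6 * n - 1).Prime ∧
      (∀ r ∈ (6 * n + 1).primeFactors, r % 6 = 1 ∧ (N : ℝ) ^ c ≤ (r : ℝ)) ∧
      ∀ x y : ℕ, 1 ≤ x → 1 ≤ y → n + y ≠ 6 * x * y + x ∧ n + x + y ≠ 6 * x * y ∧
        (n = 6 * x * y + x + y → (N : ℝ) ^ c ≤ x ∧ (N : ℝ) ^ c ≤ y))).card : ℝ)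

end Pool.Agent.H95R2.TI
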