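import Mathlib
import Pool.Agent.H95R2.TI.Defs
import Pool.Agent.H305R2.MertensE

set_option autoImplicit false

open Finset Filter

namespace Pool.Agent.H95R2.TI

open scoped Classical

namespace A3_

lemma exp_gamma_lt : Real.exp Real.eulerMascheroniConstant < 1.949 := by
  have h1 : Real.exp Real.eulerMascheroniConstant < Real.exp (2 / 3) :=
    Real.exp_lt_exp.2 Real.eulerMascheroniConstant_lt_two_thirds
  have h2 : Real.exp (2 / 3) ^ 3 = Real.exp 1 ^ 2 := by
    rw [← Real.exp_nat_mul, ← Real.exp_nat_mul]; norm_num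
  have h3 := Real.exp_one_lt_d9
  have h4 : Real.exp 1 ^ 2 < 7.4 := by
    have h5 := Real.exp_pos 1
    nlinarith
  have h5 : Real.exp (2 / 3) < 1.949 := by
    by_contra hcon
    push Not at hcon
    have h6 : (1.949 : ℝ) ^ 3 ≤ Real.exp (2 / 3) ^ 3 := pow_le_pow_left₀ (by norm_num) hcon 3
    rw [h2] at h6
    norm_num at h6 h4
    linarith
  linarith

end A3_

theorem vml : VML := by
  have h1 := Pool.Agent.H305R2.mertens_three
  have h3 := h1.eventually_lt_const A3_.exp_gamma_lt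
  have ht : Tendsto (fun w : ℝ => ⌈w⌉₊ - 1) atTop atTop :=
    (tendsto_sub_atTop_nat 1).comp tendsto_nat_ceil_atTop
  unfold VML
  filter_upwards [ht.eventually h3, ht.eventually (eventually_ge_atTop 2), eventually_ge_atTop 3]
    with w hw h2w hw3
  have hceil : ⌈w⌉₊ = (⌈w⌉₊ - 1) + 1 := by omega
  have hNw : ((⌈w⌉₊ - 1 : ℕ) : ℝ) ≤ w := by
    have h4 := Nat.ceil_lt_add_one (a := w) (by linarith)
    have h5 : ((⌈w⌉₊ : ℕ) : ℝ) = ((⌈w⌉₊ - 1 : ℕ) : ℝ) + 1 := by
      rw [hceil]; push_cast; simp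
    linarith
  set N : ℕ := ⌈w⌉₊ - 1 with hN
  have hset : AP w = (Finset.Icc 1 N).filter Nat.Prime := by
    ext p
    simp only [AP, Finset.mem_filter, Finset.mem_range, Finset.mem_Icc]
    constructor
    · rintro ⟨h, hp⟩
      have := hp.one_le
      exact ⟨⟨this, by omega⟩, hp⟩
    · rintro ⟨⟨h, h'⟩, hp⟩
      exact ⟨by omega, hp⟩
  have hVM : VM w = (∏ p ∈ (Finset.Icc 1 N).filter Nat.Prime, (1 - (p : ℝ)⁻¹)⁻¹)⁻¹ := by
    unfold VM
    rw [hset, Finset.prod_inv_distrib, inv_inv]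
    simp only [one_div]
  set P : ℝ := ∏ p ∈ (Finset.Icc 1 N).filter Nat.Prime, (1 - (p : ℝ)⁻¹)⁻¹ with hP
  have hPpos : 0 < P := by
    apply Finset.prod_pos
    intro p hp
    have hp2 := (Finset.mem_filter.1 hp).2.two_le
    have hp2' : (2 : ℝ) ≤ p := by exact_mod_cast hp2
    apply inv_pos.2
    have : (p : ℝ)⁻¹ ≤ 2⁻¹ := inv_anti₀ (by norm_num) hp2'
    have h5 : (2 : ℝ)⁻¹ = 1 / 2 := by norm_num
    linarith
  have hN2 : (2 : ℝ) ≤ N := by exact_mod_cast h2w
  have hlogN : 0 < Real.log N := Real.log_pos (by linarith)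
  have hlog : Real.log N ≤ Real.log w := Real.log_le_log (by linarith) hNw
  rw [div_lt_iff₀ hlogN] at hw
  rw [hVM, inv_mul_eq_div, le_div_iff₀ hPpos]
  nlinarith

end Pool.Agent.H95R2.TI
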