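
import Mathlib
import Pool.Agent.H95R2.TI.Defs
set_option autoImplicit false
open Finset Filter
namespace Pool.Agent.H95R2.TI
open scoped Classical

namespace C1_

theorem FS_eq (s : ℝ) : FS s = cA / Real.sqrt (min s 2.02) +
    0.13 * (Real.exp (-2 * (max s 2.02 - 2.02)) - 1) := by
  have h0 : Real.sqrt 2.02 ≠ 0 := by positivity
  unfold FS
  split_ifs with h
  · rw [min_eq_left h, max_eq_right h]
    simp
  · rw [min_eq_right (not_le.1 h).le, max_eq_left (not_le.1 h).le]
    unfold cA
    rw [mul_div_assoc, div_self h0]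
    ring

theorem FS_cont : ContinuousOn FS (Set.Ioi 0) := by
  have : FS = fun s => cA / Real.sqrt (min s 2.02) +
    0.13 * (Real.exp (-2 * (max s 2.02 - 2.02)) - 1) := funext FS_eq
  rw [this]
  apply ContinuousOn.add
  · apply ContinuousOn.div continuousOn_const
    · exact (Real.continuous_sqrt.comp (continuous_id.min continuous_const)).continuousOn
    · intro x hx
      have : 0 < min x 2.02 := lt_min hx (by norm_num)
      positivity
  · apply Continuous.continuousOn
    fun_prop

/-- the integrand -/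
noncomputable def g (Y t : ℝ) : ℝ := (Real.sqrt t)⁻¹ * FS ((Y - t) / t) / t

theorem g_cont (Y a b : ℝ) (ha : 1 ≤ a) (hb : 1.02 * b ≤ Y) :
    ContinuousOn (g Y) (Set.Icc a b) := by
  have hpos : ∀ t ∈ Set.Icc a b, 0 < t := fun t ht => by linarith [ht.1]
  unfold g
  apply ContinuousOn.div
  · apply ContinuousOn.mul
    · apply ContinuousOn.inv₀
      · exact Real.continuous_sqrt.continuousOn
      · intro t ht
        exact (Real.sqrt_pos.2 (hpos t ht)).ne'
    · refine FS_cont.comp ?_ ?_
      · apply ContinuousOn.div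
        · fun_prop
        · fun_prop
        · intro t ht
          exact (hpos t ht).ne'
      · intro t ht
        have h1 := hpos t ht
        have h2 : t ≤ b := ht.2
        exact div_pos (by nlinarith) h1
  · exact continuousOn_id
  · intro t ht
    exact (hpos t ht).ne'

theorem g_int (Y a b : ℝ) (ha : 1 ≤ a) (hab : a ≤ b) (hb : 1.02 * b ≤ Y) :
    IntervalIntegrable (g Y) MeasureTheory.volume a b :=
  ContinuousOn.intervalIntegrable (by rw [Set.uIcc_of_le hab]; exact g_cont Y a b ha hb)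

theorem hasDeriv_Lg (s : ℝ) (hs : 1 < s) :
    HasDerivAt Lg (1 / (2 * Real.sqrt s * Real.sqrt (s - 1))) s := by
  have h0 : 0 < s := by linarith
  have h1 : 0 < s - 1 := by linarith
  have a0 := Real.sqrt_pos.2 h0
  have a1 := Real.sqrt_pos.2 h1
  have d0 : HasDerivAt (fun x : ℝ => Real.sqrt x) (1 / (2 * Real.sqrt s)) s :=
    Real.hasDerivAt_sqrt h0.ne'
  have d1 : HasDerivAt (fun x : ℝ => Real.sqrt (x - 1)) (1 / (2 * Real.sqrt (s - 1))) s := by
    simpa using ((hasDerivAt_id s).sub_const 1).sqrt h1.ne'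
  have d2 := (d0.add d1).log (add_pos a0 a1).ne'
  refine HasDerivAt.congr_deriv (f := Lg) ?_ ?_ (f' := (1 / (2 * Real.sqrt s) + 1 / (2 * Real.sqrt (s - 1))) /
    (Real.sqrt s + Real.sqrt (s - 1)))
  · exact d2
  · field_simp
    ring

theorem cA_pos : 0 < cA := by unfold cA; positivity

theorem cA_sq : cA ^ 2 = 1.2769 * 2.02 := by
  unfold cA
  rw [mul_pow, Real.sq_sqrt (by norm_num)]
  norm_num

theorem fA_le_one (Y : ℝ) (h1 : 1.02 ≤ Y) (h3 : Y ≤ 3) :
    cA * Lg Y - Real.sqrt Y ≤ cA * Lg 3 - Real.sqrt 3 := by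
  have hd : ∀ s : ℝ, 1 < s → HasDerivAt (fun s => cA * Lg s - Real.sqrt s)
      (cA * (1 / (2 * Real.sqrt s * Real.sqrt (s - 1))) - 1 / (2 * Real.sqrt s)) s := by
    intro s hs
    have hs0 : 0 < s := by linarith
    have d0 : HasDerivAt (fun x : ℝ => Real.sqrt x) (1 / (2 * Real.sqrt s)) s :=
      Real.hasDerivAt_sqrt hs0.ne'
    exact ((hasDeriv_Lg s hs).const_mul cA).sub d0
  have hmono : MonotoneOn (fun s => cA * Lg s - Real.sqrt s) (Set.Icc 1.02 3) := by
    apply monotoneOn_of_deriv_nonneg (convex_Icc _ _)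
    · intro s hs
      exact (hd s (by linarith [hs.1])).continuousAt.continuousWithinAt
    · intro s hs
      rw [interior_Icc] at hs
      exact (hd s (by linarith [hs.1])).differentiableAt.differentiableWithinAt
    · intro s hs
      rw [interior_Icc] at hs
      rw [(hd s (by linarith [hs.1])).deriv]
      have h0 : 0 < s := by linarith [hs.1]
      have h1 : 0 < s - 1 := by linarith [hs.1]
      have a0 := Real.sqrt_pos.2 h0
      have a1 := Real.sqrt_pos.2 h1
      have hle : Real.sqrt (s - 1) ≤ cA := by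
        rw [Real.sqrt_le_left cA_pos.le, cA_sq]
        linarith [hs.2]
      have : cA * (1 / (2 * Real.sqrt s * Real.sqrt (s - 1))) - 1 / (2 * Real.sqrt s) =
          (cA - Real.sqrt (s - 1)) / (2 * Real.sqrt s * Real.sqrt (s - 1)) := by
        field_simp
      rw [this]
      exact div_nonneg (by linarith) (by positivity)
  exact hmono ⟨h1, h3⟩ ⟨by norm_num, le_refl _⟩ h3

/-- lower branch -/
noncomputable def fA (s : ℝ) : ℝ := (Real.sqrt 3 * (1 - 0.013) - cA * (Lg 3 - Lg s)) / Real.sqrt s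
/-- upper branch -/
noncomputable def fB (s : ℝ) : ℝ := 1 - 0.013 * Real.exp (-2 * (s - 3))

theorem fA_three : fA 3 = fB 3 := by
  unfold fA fB
  have : Real.sqrt 3 ≠ 0 := by positivity
  field_simp
  simp

theorem fS_le {s : ℝ} (h : s ≤ 3) : fS s = fA s := by
  unfold fS fA
  rw [if_pos h]

theorem fS_ge {s : ℝ} (h : 3 ≤ s) : fS s = fB s := by
  rcases h.lt_or_eq with h' | h'
  · unfold fS fB
    rw [if_neg (not_le.2 h')]
  · rw [fS_le h'.symm.le, ← h', fA_three]

/-- lemma A -/
theorem lemA (Y a b : ℝ) (ha : 1 ≤ a) (hab : a ≤ b) (hb : 1.02 * b ≤ Y) (h3 : Y ≤ 3 * a) :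
    (Real.sqrt b)⁻¹ * fA (Y / b) = (Real.sqrt a)⁻¹ * fA (Y / a) - (∫ t in a..b, g Y t) / 2 := by
  have hY : 0 < Y := by linarith
  have hsY := Real.sqrt_pos.2 hY
  have hform : ∀ t : ℝ, 0 < t → (Real.sqrt t)⁻¹ * fA (Y / t) =
      (Real.sqrt 3 * (1 - 0.013) - cA * (Lg 3 - Lg (Y / t))) / Real.sqrt Y := by
    intro t ht
    unfold fA
    have hst := Real.sqrt_pos.2 ht
    rw [Real.sqrt_div hY.le]
    field_simp
  have hder : ∀ t ∈ Set.uIcc a b, HasDerivAt (fun t => -2 * (cA * Lg (Y / t) / Real.sqrt Y)) (g Y t) t := by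
    intro t ht
    rw [Set.uIcc_of_le hab] at ht
    have ht0 : 0 < t := by linarith [ht.1]
    have hs : 1 < Y / t := by rw [lt_div_iff₀ ht0]; linarith [ht.2]
    have hYt : 0 < Y - t := by
      have := (lt_div_iff₀ ht0).1 hs
      linarith
    have hs2 : Y / t - 1 ≤ 2 := by
      have : Y / t ≤ 3 := by rw [div_le_iff₀ ht0]; linarith [ht.1]
      linarith
    have e1 : (Y - t) / t = Y / t - 1 := by field_simp
    have hFS : FS ((Y - t) / t) = cA / Real.sqrt ((Y - t) / t) := by
      unfold FS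
      rw [if_pos (by rw [e1]; linarith)]
    have d0' := (hasDerivAt_const t Y).div (hasDerivAt_id t) ht0.ne'
    have d0 : HasDerivAt (fun t : ℝ => Y / t) (-Y / t ^ 2) t := by
      refine HasDerivAt.congr_deriv d0' ?_
      simp
    have d1 := (hasDeriv_Lg (Y / t) hs).comp t d0
    have d2 := ((d1.const_mul cA).div_const (Real.sqrt Y)).const_mul (-2)
    refine HasDerivAt.congr_deriv d2 ?_
    unfold g
    rw [hFS, ← e1, Real.sqrt_div hY.le, Real.sqrt_div hYt.le]
    have hst := Real.sqrt_pos.2 ht0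
    have hsYt := Real.sqrt_pos.2 hYt
    have q1 : Real.sqrt t ^ 2 = t := Real.sq_sqrt ht0.le
    have q2 : Real.sqrt Y ^ 2 = Y := Real.sq_sqrt hY.le
    have q3 : -Y / t ^ 2 = - (Real.sqrt Y ^ 2) / (Real.sqrt t ^ 2) ^ 2 := by rw [q1, q2]
    rw [q3]
    have q4 : (Real.sqrt t)⁻¹ * (cA / (Real.sqrt (Y - t) / Real.sqrt t)) / t =
      (Real.sqrt t)⁻¹ * (cA / (Real.sqrt (Y - t) / Real.sqrt t)) / (Real.sqrt t ^ 2) := by rw [q1]
    rw [q4]
    field_simp
  have hint := intervalIntegral.integral_eq_sub_of_hasDerivAt hder (g_int Y a b ha hab hb)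
  rw [hint, hform b (by linarith), hform a (by linarith)]
  ring

/-- lemma B -/
theorem lemB (h : NU1) (Y a b : ℝ) (ha : 1 ≤ a) (hab : a ≤ b) (hb : 3 * b ≤ Y) :
    (Real.sqrt b)⁻¹ * fB (Y / b) ≤ (Real.sqrt a)⁻¹ * fB (Y / a) - (∫ t in a..b, g Y t) / 2 := by
  have hY : 0 < Y := by linarith
  let G' : ℝ → ℝ := fun t => (Real.sqrt t)⁻¹ * (1 + 0.013 * Real.exp (-2 * (Y / t - 3)) * (4 * (Y / t) - 1)) / t
  have hder : ∀ t ∈ Set.uIcc a b, HasDerivAt (fun t => -2 * ((Real.sqrt t)⁻¹ * fB (Y / t))) (G' t) t := by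
    intro t ht
    rw [Set.uIcc_of_le hab] at ht
    have ht0 : 0 < t := by linarith [ht.1]
    have hst := Real.sqrt_pos.2 ht0
    have d0' := (hasDerivAt_const t Y).div (hasDerivAt_id t) ht0.ne'
    have d0 : HasDerivAt (fun t : ℝ => Y / t) (-Y / t ^ 2) t := by
      refine HasDerivAt.congr_deriv d0' ?_
      simp
    have d1 : HasDerivAt (fun x : ℝ => Real.sqrt x) (1 / (2 * Real.sqrt t)) t :=
      Real.hasDerivAt_sqrt ht0.ne'
    have d2 := d1.inv hst.ne'
    have d3 := (((((d0.sub_const 3).const_mul (-2)).exp).const_mul 0.013).const_sub 1)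
    have d4 := (d2.mul d3).const_mul (-2)
    refine HasDerivAt.congr_deriv d4 ?_
    simp only [G', Pi.inv_apply]
    have q1 : Real.sqrt t ^ 2 = t := Real.sq_sqrt ht0.le
    rw [q1]
    generalize Real.exp (-2 * (Y / t - 3)) = E
    field_simp
    ring
  have hcont : ContinuousOn G' (Set.uIcc a b) := by
    rw [Set.uIcc_of_le hab]
    have hpos : ∀ t ∈ Set.Icc a b, t ≠ 0 := fun t ht => by
      have : 0 < t := by linarith [ht.1]
      exact this.ne'
    have hpos' : ∀ t ∈ Set.Icc a b, Real.sqrt t ≠ 0 := fun t ht => by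
      have : 0 < t := by linarith [ht.1]
      exact (Real.sqrt_pos.2 this).ne'
    have c1 : ContinuousOn (fun t : ℝ => Y / t) (Set.Icc a b) :=
      continuousOn_const.div continuousOn_id hpos
    have c2 : ContinuousOn (fun t : ℝ => (Real.sqrt t)⁻¹) (Set.Icc a b) :=
      ContinuousOn.inv₀ Real.continuous_sqrt.continuousOn hpos'
    refine ContinuousOn.div (c2.mul ?_) continuousOn_id hpos
    refine continuousOn_const.add (ContinuousOn.mul (continuousOn_const.mul ?_) ?_)
    · exact Real.continuous_exp.comp_continuousOn (continuousOn_const.mul (c1.sub continuousOn_const))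
    · exact (continuousOn_const.mul c1).sub continuousOn_const
  have hG'int : IntervalIntegrable G' MeasureTheory.volume a b := hcont.intervalIntegrable
  have hint := intervalIntegral.integral_eq_sub_of_hasDerivAt hder hG'int
  have hle : ∫ t in a..b, g Y t ≤ ∫ t in a..b, G' t := by
    apply intervalIntegral.integral_mono_on hab (g_int Y a b ha hab (by linarith)) hG'int
    intro t ht
    have ht0 : 0 < t := by linarith [ht.1]
    have hst := Real.sqrt_pos.2 ht0
    have hs : 3 ≤ Y / t := by rw [le_div_iff₀ ht0]; linarith [ht.2]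
    have e1 : (Y - t) / t = Y / t - 1 := by field_simp
    simp only [G', g]
    rw [e1]
    apply div_le_div_of_nonneg_right _ ht0.le
    exact mul_le_mul_of_nonneg_left (h _ hs) (by positivity)
  rw [hint] at hle
  linarith

end C1_

open C1_ in
theorem ii1 (h : NU1) : II1 := by
  intro Y U hU hY
  have hg : (∫ t in (1 : ℝ)..U, (Real.sqrt t)⁻¹ * FS ((Y - t) / t) / t) = ∫ t in (1:ℝ)..U, g Y t := rfl
  rw [hg]
  have hU0 : 0 < U := by linarith
  have hB1 : ∀ s, fB s ≤ 1 := by
    intro s
    unfold fB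
    have := Real.exp_pos (-2 * (s - 3))
    nlinarith
  rcases le_total Y 3 with h3 | h3
  · have hA := lemA Y 1 U le_rfl hU hY (by linarith)
    have e1 : Y / U ≤ 3 := by rw [div_le_iff₀ hU0]; nlinarith
    rw [fS_le e1, hA]
    have hY0 : 0 < Y := by linarith
    have hsY := Real.sqrt_pos.2 hY0
    have : fA Y ≤ 1 := by
      unfold fA
      rw [div_le_one hsY]
      have := fA_le_one Y (by linarith) h3
      have h3' : 0 < Real.sqrt 3 := by positivity
      nlinarith
    simp only [Real.sqrt_one, inv_one, one_mul, div_one]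
    linarith
  · rcases le_total (3 * U) Y with h4 | h4
    · have hB := lemB h Y 1 U le_rfl hU h4
      have e1 : 3 ≤ Y / U := by rw [le_div_iff₀ hU0]; linarith
      rw [fS_ge e1]
      simp only [Real.sqrt_one, inv_one, one_mul, div_one] at hB
      linarith [hB1 Y]
    · have hB := lemB h Y 1 (Y / 3) le_rfl (by linarith) (by linarith)
      have hA := lemA Y (Y / 3) U (by linarith) (by linarith) hY (by linarith)
      have e1 : Y / U ≤ 3 := by rw [div_le_iff₀ hU0]; linarith
      have e2 : Y / (Y / 3) = 3 := by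
        have : Y ≠ 0 := by linarith
        field_simp
      rw [fS_le e1, hA, e2, fA_three]
      rw [e2] at hB
      have hadd := intervalIntegral.integral_add_adjacent_intervals
        (g_int Y 1 (Y / 3) le_rfl (by linarith) (by linarith))
        (g_int Y (Y / 3) U (by linarith) (by linarith) hY)
      rw [← hadd]
      simp only [Real.sqrt_one, inv_one, one_mul, div_one] at hB
      linarith [hB1 Y]

end Pool.Agent.H95R2.TI
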