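import Mathlib
import Pool.Agent.H95R2.TI.Defs

set_option autoImplicit false

open Finset Filter

namespace Pool.Agent.H95R2.TI

open scoped Classical

namespace C2_

theorem FS_eq (s : ℝ) (hs : 2.02 ≤ s) : FS s = 1 + 0.13 * Real.exp (-2 * (s - 2.02)) := by
  unfold FS
  split_ifs with h
  · have h1 : s = 2.02 := le_antisymm h hs
    subst h1
    have h2 : Real.sqrt 2.02 ≠ 0 := (Real.sqrt_pos.2 (by norm_num)).ne'
    rw [cA, mul_div_assoc, div_self h2]
    norm_num
  · rfl

/-- the function `H` -/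
noncomputable def HH (Y t : ℝ) : ℝ :=
  (Real.sqrt t)⁻¹ * (1 + 0.13 * Real.exp (-2 * (Y / t - 2.02)))

/-- the kernel -/
noncomputable def Kf (Y t : ℝ) : ℝ :=
  (Real.sqrt t)⁻¹ * (1 - 0.13 * Real.exp (-2 * (Y / t - 2.02)) * (4 * (Y / t) - 1)) / t

theorem HH_deriv (Y t : ℝ) (ht : 0 < t) : HasDerivAt (HH Y) (-(1 / 2) * Kf Y t) t := by
  have hs : Real.sqrt t ≠ 0 := (Real.sqrt_pos.2 ht).ne'
  have hsq : Real.sqrt t ^ 2 = t := Real.sq_sqrt ht.le
  have h1 : HasDerivAt (fun t : ℝ => (Real.sqrt t)⁻¹)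
      (-(1 / (2 * Real.sqrt t)) / Real.sqrt t ^ 2) t :=
    (Real.hasDerivAt_sqrt ht.ne').inv hs
  have h2 : HasDerivAt (fun t : ℝ => Y / t) (-Y / t ^ 2) t := by
    have h := (hasDerivAt_const t Y).fun_div (hasDerivAt_id t) ht.ne'
    refine h.congr_deriv ?_
    simp
  have h3 : HasDerivAt (fun t : ℝ => 1 + 0.13 * Real.exp (-2 * (Y / t - 2.02)))
      (0.13 * (Real.exp (-2 * (Y / t - 2.02)) * (-2 * (-Y / t ^ 2)))) t :=
    ((((h2.sub_const 2.02).const_mul (-2)).exp).const_mul 0.13).const_add 1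
  have h4 := h1.mul h3
  refine h4.congr_deriv ?_
  unfold Kf
  rw [hsq]
  field_simp
  ring

theorem Kf_cont (Y U : ℝ) (hU : 1 ≤ U) : ContinuousOn (Kf Y) (Set.uIcc 1 U) := by
  rw [Set.uIcc_of_le hU]
  have h0 : ∀ t ∈ Set.Icc (1 : ℝ) U, t ≠ 0 := fun t ht => by have := ht.1; positivity
  have h0' : ∀ t ∈ Set.Icc (1 : ℝ) U, Real.sqrt t ≠ 0 := fun t ht =>
    (Real.sqrt_pos.2 (by have := ht.1; linarith)).ne'
  unfold Kf
  refine ContinuousOn.div (ContinuousOn.mul ?_ ?_) continuousOn_id h0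
  · exact ContinuousOn.inv₀ Real.continuous_sqrt.continuousOn h0'
  · have hd : ContinuousOn (fun t : ℝ => Y / t) (Set.Icc 1 U) :=
      continuousOn_const.div continuousOn_id h0
    refine continuousOn_const.sub (ContinuousOn.mul (continuousOn_const.mul ?_) ?_)
    · exact Real.continuous_exp.comp_continuousOn (continuousOn_const.mul (hd.sub continuousOn_const))
    · exact (continuousOn_const.mul hd).sub continuousOn_const

/-- continuous version of `fS` -/
noncomputable def ff (s : ℝ) : ℝ :=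
  if s ≤ 3 then (Real.sqrt 3 * (1 - 0.013) - cA * (Lg 3 - Lg (max s 1))) / Real.sqrt (max s 1)
  else 1 - 0.013 * Real.exp (-2 * (s - 3))

theorem ff_cont : Continuous ff := by
  unfold ff
  have hm : Continuous fun s : ℝ => max s 1 := continuous_id.max continuous_const
  have hpos : ∀ s : ℝ, 0 < Real.sqrt (max s 1) := fun s =>
    Real.sqrt_pos.2 (lt_of_lt_of_le one_pos (le_max_right _ _))
  refine Continuous.if_le ?_ ?_ continuous_id continuous_const ?_
  · refine Continuous.div ?_ (Real.continuous_sqrt.comp hm) fun s => (hpos s).ne'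
    refine continuous_const.sub (continuous_const.mul (continuous_const.sub ?_))
    unfold Lg
    refine Continuous.log ?_ ?_
    · exact (Real.continuous_sqrt.comp hm).add (Real.continuous_sqrt.comp (hm.sub continuous_const))
    · intro s
      have := hpos s
      have h2 := Real.sqrt_nonneg (max s 1 - 1)
      linarith
  · fun_prop
  · intro s hs
    subst hs
    have h3 : max (3 : ℝ) 1 = 3 := max_eq_left (by norm_num)
    have h4 : Real.sqrt 3 ≠ 0 := (Real.sqrt_pos.2 (by norm_num)).ne'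
    rw [h3]
    field_simp
    simp

theorem ff_eq (s : ℝ) (hs : 1 ≤ s) : ff s = fS s := by
  unfold ff fS
  rw [max_eq_left hs]

theorem J_cont (Y U : ℝ) (hU : 1 ≤ U) (hY : 2.02 * U ≤ Y) :
    ContinuousOn (fun t : ℝ => (Real.sqrt t)⁻¹ * fS ((Y - t) / t) / t) (Set.uIcc 1 U) := by
  rw [Set.uIcc_of_le hU]
  have h0 : ∀ t ∈ Set.Icc (1 : ℝ) U, t ≠ 0 := fun t ht => by have := ht.1; positivity
  have h0' : ∀ t ∈ Set.Icc (1 : ℝ) U, Real.sqrt t ≠ 0 := fun t ht =>
    (Real.sqrt_pos.2 (by have := ht.1; linarith)).ne'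
  refine ContinuousOn.div (ContinuousOn.mul ?_ ?_) continuousOn_id h0
  · exact ContinuousOn.inv₀ Real.continuous_sqrt.continuousOn h0'
  · have hd : ContinuousOn (fun t : ℝ => (Y - t) / t) (Set.Icc 1 U) :=
      (continuousOn_const.sub continuousOn_id).div continuousOn_id h0
    refine (ff_cont.comp_continuousOn hd).congr ?_
    intro t ht
    have h1 : 1 ≤ (Y - t) / t := by
      rw [le_div_iff₀ (by linarith [ht.1])]
      linarith [ht.1, ht.2]
    exact (ff_eq _ h1).symm

end C2_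

open C2_ in
theorem ii2 (h1 : NU2) (h2 : NU3) : II2 := by
  intro Y U hU hY
  have hU0 : 0 < U := by linarith
  have hKJ : ∀ t ∈ Set.Icc (1 : ℝ) U, Kf Y t ≤ (Real.sqrt t)⁻¹ * fS ((Y - t) / t) / t := by
    intro t ht
    have ht0 : 0 < t := by linarith [ht.1]
    have hs : 2.02 ≤ Y / t := by
      rw [le_div_iff₀ ht0]
      linarith [ht.2]
    have he : (Y - t) / t = Y / t - 1 := by
      field_simp
    have hk : 1 - 0.13 * Real.exp (-2 * (Y / t - 2.02)) * (4 * (Y / t) - 1) ≤ fS (Y / t - 1) := by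
      rcases le_total (Y / t) 4 with h4 | h4
      · linarith [h1 (Y / t) hs h4]
      · linarith [h2 (Y / t) h4]
    unfold Kf
    rw [he]
    have h5 : 0 ≤ (Real.sqrt t)⁻¹ := inv_nonneg.2 (Real.sqrt_nonneg t)
    gcongr
  have hKi : IntervalIntegrable (Kf Y) MeasureTheory.volume 1 U :=
    (Kf_cont Y U hU).intervalIntegrable
  have hJi : IntervalIntegrable (fun t : ℝ => (Real.sqrt t)⁻¹ * fS ((Y - t) / t) / t)
      MeasureTheory.volume 1 U := (J_cont Y U hU hY).intervalIntegrable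
  have h3 := intervalIntegral.integral_mono_on hU hKi hJi hKJ
  have h4 : ∫ t in (1 : ℝ)..U, -(1 / 2) * Kf Y t = HH Y U - HH Y 1 := by
    refine intervalIntegral.integral_eq_sub_of_hasDerivAt (fun t ht => ?_) (hKi.const_mul _)
    rw [Set.uIcc_of_le hU] at ht
    exact HH_deriv Y t (by linarith [ht.1])
  rw [intervalIntegral.integral_const_mul] at h4
  have h5 : 1 ≤ HH Y 1 := by
    unfold HH
    rw [Real.sqrt_one, inv_one, one_mul]
    have := Real.exp_pos (-2 * (Y / 1 - 2.02))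
    linarith
  have h6 : (Real.sqrt U)⁻¹ * FS (Y / U) = HH Y U := by
    unfold HH
    rw [FS_eq _ (by rw [le_div_iff₀ hU0]; exact hY)]
  rw [h6]
  linarith

end Pool.Agent.H95R2.TI
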