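import Mathlib
import Pool.Agent.H95R2.TI.Defs

set_option autoImplicit false

open Finset Filter

namespace Pool.Agent.H95R2.TI

open scoped Classical

theorem nu1 : NU1 := by
  intro s hs
  have e1 : (0.96 : ℝ) ≤ Real.exp (-0.04) := by
    have := Real.add_one_le_exp (-0.04 : ℝ)
    linarith
  by_cases h : s - 1 ≤ 2.02
  · unfold FS
    rw [if_pos h]
    have h2 : (0 : ℝ) < Real.sqrt 2 := by positivity
    have h3 : Real.sqrt 2 ≤ Real.sqrt (s - 1) := Real.sqrt_le_sqrt (by linarith)
    have h4 : 0 < Real.sqrt (s - 1) := lt_of_lt_of_le h2 h3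
    have h5 : Real.sqrt 2.02 ≤ 1.005 * Real.sqrt 2 := by
      rw [show (1.005 : ℝ) * Real.sqrt 2 = Real.sqrt (1.005 ^ 2 * 2) by
        rw [Real.sqrt_mul (by norm_num), Real.sqrt_sq (by norm_num)]]
      exact Real.sqrt_le_sqrt (by norm_num)
    have h6 : cA / Real.sqrt (s - 1) ≤ 1.13565 := by
      rw [div_le_iff₀ h4]
      unfold cA
      nlinarith
    have h7 : (0.96 : ℝ) ≤ Real.exp (-2 * (s - 3)) :=
      e1.trans (Real.exp_le_exp.mpr (by linarith))
    nlinarith
  · unfold FS
    rw [if_neg h]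
    push Not at h
    have h1 : Real.exp (-2 * (s - 1 - 2.02)) = Real.exp 0.04 * Real.exp (-2 * (s - 3)) := by
      rw [← Real.exp_add]; congr 1; ring
    have h2 : Real.exp 0.04 ≤ 1.0417 := by
      have h3 : Real.exp 0.04 * Real.exp (-0.04) = 1 := by
        rw [← Real.exp_add]; norm_num
      have h4 : 0 < Real.exp (0.04 : ℝ) := Real.exp_pos _
      nlinarith
    rw [h1]
    have h5 : 0 < Real.exp (-2 * (s - 3)) := Real.exp_pos _
    have h6 : 0.13 * Real.exp 0.04 ≤ 0.013 * (4 * s - 1) := by linarith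
    nlinarith

end Pool.Agent.H95R2.TI
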