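import Mathlib
import Pool.Agent.H95R2.TI.Defs
set_option autoImplicit false
open Finset Filter
namespace Pool.Agent.H95R2.TI
open scoped Classical

namespace C4_

lemma cA_le : cA ≤ 1.6061 := by
  unfold cA
  have h : Real.sqrt 2.02 ≤ 1.4213 := by
    rw [show (1.4213 : ℝ) = Real.sqrt (1.4213 ^ 2) by rw [Real.sqrt_sq (by norm_num)]]
    exact Real.sqrt_le_sqrt (by norm_num)
  linarith

lemma le_cA : 1.6046 ≤ cA := by
  unfold cA
  have h : (1.42 : ℝ) ≤ Real.sqrt 2.02 := Real.le_sqrt_of_sq_le (by norm_num)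
  linarith

lemma s3l : (1.73205 : ℝ) ≤ Real.sqrt 3 := Real.le_sqrt_of_sq_le (by norm_num)

lemma s3u : Real.sqrt 3 ≤ 1.7321 := by
  rw [show (1.7321 : ℝ) = Real.sqrt (1.7321 ^ 2) by rw [Real.sqrt_sq (by norm_num)]]
  exact Real.sqrt_le_sqrt (by norm_num)

lemma s2u : Real.sqrt 2 ≤ 1.41422 := by
  rw [show (1.41422 : ℝ) = Real.sqrt (1.41422 ^ 2) by rw [Real.sqrt_sq (by norm_num)]]
  exact Real.sqrt_le_sqrt (by norm_num)

lemma exp_low (t : ℝ) (ht : t ≤ 64) : (1 - t / 64) ^ 64 ≤ Real.exp (-t) := by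
  have h1 : 1 - t / 64 ≤ Real.exp (-t / 64) := by
    have := Real.add_one_le_exp (-t / 64)
    linarith
  calc (1 - t / 64) ^ 64 ≤ Real.exp (-t / 64) ^ 64 :=
        pow_le_pow_left₀ (by linarith) h1 64
    _ = Real.exp (-t) := by
      rw [← Real.exp_nat_mul]; congr 1; push_cast; ring

noncomputable def TL (L : ℝ) : ℝ :=
  1 + L + L ^ 2 / 2 + L ^ 3 / 6 + L ^ 4 / 24 + L ^ 5 / 120 + L ^ 6 / 720 + L ^ 7 / 5040

lemma TL_le (L : ℝ) (hL : 0 ≤ L) : TL L ≤ Real.exp L := by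
  have h := Real.sum_le_exp_of_nonneg hL 8
  simp only [Finset.sum_range_succ, Finset.sum_range_zero, Nat.factorial] at h
  norm_num at h
  unfold TL
  linarith

lemma LgA (a L al bl : ℝ) (ha : 1.02 ≤ a) (hL : 0 ≤ L) (hal : 0 ≤ al) (hal2 : al ^ 2 ≤ a)
    (hbl : 0 ≤ bl) (hbl2 : bl ^ 2 ≤ a - 1) (hlog : 3.14632 ≤ TL L * (al + bl)) :
    Lg 3 - Lg a ≤ L := by
  have halu : al ≤ Real.sqrt a := Real.le_sqrt_of_sq_le hal2
  have hblv : bl ≤ Real.sqrt (a - 1) := Real.le_sqrt_of_sq_le hbl2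
  have hu : 0 < Real.sqrt a := Real.sqrt_pos.2 (by linarith)
  have hv : 0 ≤ Real.sqrt (a - 1) := Real.sqrt_nonneg _
  have h3 : Lg 3 ≤ Real.log 3.14632 := by
    unfold Lg
    apply Real.log_le_log
    · have : 0 ≤ Real.sqrt (3 - 1) := Real.sqrt_nonneg _
      linarith [s3l]
    · rw [show (3 : ℝ) - 1 = 2 by norm_num]
      linarith [s3u, s2u]
  have h5 : (3.14632 : ℝ) ≤ Real.exp L * (Real.sqrt a + Real.sqrt (a - 1)) := by
    refine hlog.trans (mul_le_mul (TL_le L hL) (by linarith) (by linarith) (Real.exp_pos _).le)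
  have h6 : Real.log 3.14632 ≤ Real.log (Real.exp L * (Real.sqrt a + Real.sqrt (a - 1))) :=
    Real.log_le_log (by norm_num) h5
  rw [Real.log_mul (Real.exp_pos _).ne' (by linarith), Real.log_exp] at h6
  have h7 : Lg a = Real.log (Real.sqrt a + Real.sqrt (a - 1)) := rfl
  linarith

lemma LgD (a r : ℝ) (ha : 1.02 ≤ a) (har : a ≤ r) (hr3 : r ≤ 3) :
    2 / 3.14632 * (Real.sqrt r - Real.sqrt a) ≤ Lg r - Lg a := by
  have h7r : Lg r = Real.log (Real.sqrt r + Real.sqrt (r - 1)) := rfl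
  have h7a : Lg a = Real.log (Real.sqrt a + Real.sqrt (a - 1)) := rfl
  have hp2 : Real.sqrt r ^ 2 = r := Real.sq_sqrt (by linarith)
  have hq2 : Real.sqrt (r - 1) ^ 2 = r - 1 := Real.sq_sqrt (by linarith)
  have hu2 : Real.sqrt a ^ 2 = a := Real.sq_sqrt (by linarith)
  have hv2 : Real.sqrt (a - 1) ^ 2 = a - 1 := Real.sq_sqrt (by linarith)
  have hp3 : Real.sqrt r ≤ Real.sqrt 3 := Real.sqrt_le_sqrt hr3
  have hq3 : Real.sqrt (r - 1) ≤ Real.sqrt 2 := Real.sqrt_le_sqrt (by linarith)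
  have hup : Real.sqrt a ≤ Real.sqrt r := Real.sqrt_le_sqrt har
  have hvq : Real.sqrt (a - 1) ≤ Real.sqrt (r - 1) := Real.sqrt_le_sqrt (by linarith)
  have hqp : Real.sqrt (r - 1) ≤ Real.sqrt r := Real.sqrt_le_sqrt (by linarith)
  have hvu : Real.sqrt (a - 1) ≤ Real.sqrt a := Real.sqrt_le_sqrt (by linarith)
  have hv0 : 0 < Real.sqrt (a - 1) := Real.sqrt_pos.2 (by linarith)
  rw [h7r, h7a]
  generalize Real.sqrt r = p at *
  generalize Real.sqrt (r - 1) = q at *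
  generalize Real.sqrt a = u at *
  generalize Real.sqrt (a - 1) = v at *
  have h3 : (q - v) * (q + v) = (p - u) * (p + u) := by
    linear_combination hq2 - hv2 - hp2 + hu2
  have h5 : (p - u) * (q + v) ≤ (q - v) * (q + v) := by
    rw [h3]
    exact mul_le_mul_of_nonneg_left (by linarith) (by linarith)
  have h6 : p - u ≤ q - v := le_of_mul_le_mul_right h5 (by linarith)
  have hx : 0 < p + q := by linarith
  have hy : 0 < u + v := by linarith
  have h4 := Real.one_sub_inv_le_log_of_pos (show 0 < (p + q) / (u + v) by positivity)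
  rw [Real.log_div hx.ne' hy.ne', inv_div] at h4
  refine le_trans ?_ h4
  have h8 : p + q ≤ 3.14632 := by linarith [s3u, s2u]
  have h7 : 1 - (u + v) / (p + q) = ((p + q) - (u + v)) / (p + q) := by field_simp
  rw [h7]
  calc 2 / 3.14632 * (p - u) = 2 * (p - u) / 3.14632 := by ring
    _ ≤ 2 * (p - u) / (p + q) := by
      apply div_le_div_of_nonneg_left _ hx h8
      linarith
    _ ≤ _ := by
      apply div_le_div_of_nonneg_right _ hx.le
      linarith

lemma rhs (b r V : ℝ) (hr : 1.02 ≤ r) (hrb : r ≤ b) (hb : b ≤ 3)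
    (hV : V ≤ 0.13 * (1 - 2 * (b - 1.02) / 64) ^ 64 * (4 * b + 3)) :
    V ≤ 0.13 * Real.exp (-2 * (r + 1 - 2.02)) * (4 * (r + 1) - 1) := by
  have h3 := exp_low (2 * (b - 1.02)) (by linarith)
  have h4b : (0 : ℝ) ≤ 4 * b + 3 := by linarith
  have h4r : (0 : ℝ) ≤ 4 * (r + 1) - 1 := by linarith
  have h4 : V ≤ 0.13 * Real.exp (-(2 * (b - 1.02))) * (4 * b + 3) := by
    refine hV.trans ?_
    apply mul_le_mul_of_nonneg_right _ h4b
    exact mul_le_mul_of_nonneg_left h3 (by norm_num)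
  refine h4.trans ?_
  have h5 : Real.exp (-2 * (r + 1 - 2.02)) =
      Real.exp (-(2 * (b - 1.02))) * Real.exp (2 * (b - r)) := by
    rw [← Real.exp_add]; congr 1; ring
  have h6 : 1 + 2 * (b - r) ≤ Real.exp (2 * (b - r)) := by
    have := Real.add_one_le_exp (2 * (b - r))
    linarith
  have h7 : 4 * b + 3 ≤ (1 + 2 * (b - r)) * (4 * (r + 1) - 1) := by
    have h9 : 0 ≤ (b - r) * (8 * r + 2) := mul_nonneg (by linarith) (by linarith)
    have h10 : (1 + 2 * (b - r)) * (4 * (r + 1) - 1) = 4 * b + 3 + (b - r) * (8 * r + 2) := by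
      ring
    linarith
  have h8 : 0 < Real.exp (-(2 * (b - 1.02))) := Real.exp_pos _
  rw [h5]
  generalize Real.exp (-(2 * (b - 1.02))) = E at *
  generalize Real.exp (2 * (b - r)) = F at *
  have h9 : (1 + 2 * (b - r)) * (4 * (r + 1) - 1) ≤ F * (4 * (r + 1) - 1) :=
    mul_le_mul_of_nonneg_right h6 h4r
  calc 0.13 * E * (4 * b + 3) ≤ 0.13 * E * (F * (4 * (r + 1) - 1)) :=
        mul_le_mul_of_nonneg_left (h7.trans h9) (by positivity)
    _ = _ := by ring

lemma lhs (a r V L au : ℝ) (ha : 1.02 ≤ a) (har : a ≤ r) (hr3 : r ≤ 3) (hL0 : 0 ≤ L)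
    (hV0 : 0 ≤ V) (hV1 : V ≤ 1) (hau : 0 ≤ au) (hau2 : a ≤ au ^ 2) (hLa : Lg 3 - Lg a ≤ L)
    (hnum : (1 - V) * au ≤ 1.73205 * 0.987 - 1.6061 * L) : 1 - fS r ≤ V := by
  have h3 : fS r = (Real.sqrt 3 * (1 - 0.013) - cA * (Lg 3 - Lg r)) / Real.sqrt r := by
    unfold fS
    rw [if_pos (by linarith)]
  have hD := LgD a r ha har hr3
  have huau : Real.sqrt a ≤ au := by
    rw [← Real.sqrt_sq hau]
    exact Real.sqrt_le_sqrt hau2
  have hup : Real.sqrt a ≤ Real.sqrt r := Real.sqrt_le_sqrt har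
  have hp0 : 0 < Real.sqrt r := Real.sqrt_pos.2 (by linarith)
  have h5 : 1 - V ≤ fS r := by
    rw [h3, le_div_iff₀ hp0]
    generalize Real.sqrt r = p at *
    generalize Real.sqrt a = u at *
    have h6 : (1 - V) * u ≤ (1 - V) * au := mul_le_mul_of_nonneg_left huau (by linarith)
    have h7 : (1 - V) * (p - u) ≤ 1 * (p - u) :=
      mul_le_mul_of_nonneg_right (by linarith) (by linarith)
    have h8 : Lg 3 - Lg r ≤ L - 2 / 3.14632 * (p - u) := by linarith
    have h9 : cA * (Lg 3 - Lg r) ≤ cA * (L - 2 / 3.14632 * (p - u)) :=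
      mul_le_mul_of_nonneg_left h8 (by linarith [le_cA])
    have h10 : cA * L ≤ 1.6061 * L := mul_le_mul_of_nonneg_right cA_le hL0
    have h11 : 1 * (p - u) ≤ cA * (2 / 3.14632) * (p - u) := by
      apply mul_le_mul_of_nonneg_right _ (by linarith)
      have := le_cA
      norm_num at this ⊢
      linarith
    have h12 : cA * (L - 2 / 3.14632 * (p - u)) = cA * L - cA * (2 / 3.14632) * (p - u) := by
      ring
    have h13 : (1 - V) * p = (1 - V) * u + (1 - V) * (p - u) := by ring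
    have h14 := s3l
    linarith
  linarith

lemma step (a b L V al bl au : ℝ) (ha : 1.02 ≤ a) (hb : b ≤ 3) (hL0 : 0 ≤ L)
    (hV0 : 0 ≤ V) (hV1 : V ≤ 1) (hal : 0 ≤ al) (hal2 : al ^ 2 ≤ a) (hbl : 0 ≤ bl)
    (hbl2 : bl ^ 2 ≤ a - 1) (hau : 0 ≤ au) (hau2 : a ≤ au ^ 2)
    (hlog : 3.14632 ≤ TL L * (al + bl))
    (hV : V ≤ 0.13 * (1 - 2 * (b - 1.02) / 64) ^ 64 * (4 * b + 3))
    (hnum : (1 - V) * au ≤ 1.73205 * 0.987 - 1.6061 * L) :
    ∀ s, a + 1 ≤ s → s ≤ b + 1 →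
      1 - fS (s - 1) ≤ 0.13 * Real.exp (-2 * (s - 2.02)) * (4 * s - 1) := by
  intro s h1 h2
  obtain ⟨r, rfl⟩ : ∃ r, s = r + 1 := ⟨s - 1, by ring⟩
  rw [add_sub_cancel_right]
  exact (lhs a r V L au ha (by linarith) (by linarith) hL0 hV0 hV1 hau hau2
    (LgA a L al bl ha hL0 hal hal2 hbl hbl2 hlog) hnum).trans
    (rhs b r V (by linarith) (by linarith) hb hV)

lemma st_1_02 (s : ℝ) (h1 : 1.02 + 1 ≤ s) (h2 : s ≤ 1.0295 + 1) :
    1 - fS (s - 1) ≤ 0.13 * Real.exp (-2 * (s - 2.02)) * (4 * s - 1) :=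
  step 1.02 1.0295 1.0055 0.9079 1.00995 0.14142 1.00996 (by norm_num) (by norm_num) (by norm_num) (by norm_num)
    (by norm_num) (by norm_num) (by norm_num) (by norm_num) (by norm_num) (by norm_num)
    (by norm_num) (by norm_num [TL]) (by norm_num) (by norm_num) s h1 h2

lemma st_1_0295 (s : ℝ) (h1 : 1.0295 + 1 ≤ s) (h2 : s ≤ 1.055 + 1) :
    1 - fS (s - 1) ≤ 0.13 * Real.exp (-2 * (s - 2.02)) * (4 * s - 1) :=
  step 1.0295 1.055 0.9755 0.8751 1.01464 0.17175 1.01465 (by norm_num) (by norm_num) (by norm_num) (by norm_num)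
    (by norm_num) (by norm_num) (by norm_num) (by norm_num) (by norm_num) (by norm_num)
    (by norm_num) (by norm_num [TL]) (by norm_num) (by norm_num) s h1 h2

lemma st_1_055 (s : ℝ) (h1 : 1.055 + 1 ≤ s) (h2 : s ≤ 1.13 + 1) :
    1 - fS (s - 1) ≤ 0.13 * Real.exp (-2 * (s - 2.02)) * (4 * s - 1) :=
  step 1.055 1.13 0.914 0.7842 1.02713 0.23452 1.02714 (by norm_num) (by norm_num) (by norm_num) (by norm_num)
    (by norm_num) (by norm_num) (by norm_num) (by norm_num) (by norm_num) (by norm_num)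
    (by norm_num) (by norm_num [TL]) (by norm_num) (by norm_num) s h1 h2

lemma st_1_13 (s : ℝ) (h1 : 1.13 + 1 ≤ s) (h2 : s ≤ 1.3 + 1) :
    1 - fS (s - 1) ≤ 0.13 * Real.exp (-2 * (s - 2.02)) * (4 * s - 1) :=
  step 1.13 1.3 0.7933 0.6074 1.06301 0.36055 1.06302 (by norm_num) (by norm_num) (by norm_num) (by norm_num)
    (by norm_num) (by norm_num) (by norm_num) (by norm_num) (by norm_num) (by norm_num)
    (by norm_num) (by norm_num [TL]) (by norm_num) (by norm_num) s h1 h2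

lemma st_1_3 (s : ℝ) (h1 : 1.3 + 1 ≤ s) (h2 : s ≤ 1.55 + 1) :
    1 - fS (s - 1) ≤ 0.13 * Real.exp (-2 * (s - 2.02)) * (4 * s - 1) :=
  step 1.3 1.55 0.623 0.4106 1.14017 0.54772 1.14018 (by norm_num) (by norm_num) (by norm_num) (by norm_num)
    (by norm_num) (by norm_num) (by norm_num) (by norm_num) (by norm_num) (by norm_num)
    (by norm_num) (by norm_num [TL]) (by norm_num) (by norm_num) s h1 h2

lemma st_1_55 (s : ℝ) (h1 : 1.55 + 1 ≤ s) (h2 : s ≤ 1.85 + 1) :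
    1 - fS (s - 1) ≤ 0.13 * Real.exp (-2 * (s - 2.02)) * (4 * s - 1) :=
  step 1.55 1.85 0.46 0.2514 1.24498 0.74161 1.24499 (by norm_num) (by norm_num) (by norm_num) (by norm_num)
    (by norm_num) (by norm_num) (by norm_num) (by norm_num) (by norm_num) (by norm_num)
    (by norm_num) (by norm_num [TL]) (by norm_num) (by norm_num) s h1 h2

lemma st_1_85 (s : ℝ) (h1 : 1.85 + 1 ≤ s) (h2 : s ≤ 2.15 + 1) :
    1 - fS (s - 1) ≤ 0.13 * Real.exp (-2 * (s - 2.02)) * (4 * s - 1) :=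
  step 1.85 2.15 0.3214 0.151 1.36014 0.92195 1.36015 (by norm_num) (by norm_num) (by norm_num) (by norm_num)
    (by norm_num) (by norm_num) (by norm_num) (by norm_num) (by norm_num) (by norm_num)
    (by norm_num) (by norm_num [TL]) (by norm_num) (by norm_num) s h1 h2

lemma st_2_15 (s : ℝ) (h1 : 2.15 + 1 ≤ s) (h2 : s ≤ 2.45 + 1) :
    1 - fS (s - 1) ≤ 0.13 * Real.exp (-2 * (s - 2.02)) * (4 * s - 1) :=
  step 2.15 2.45 0.2148 0.0892 1.46628 1.07238 1.46629 (by norm_num) (by norm_num) (by norm_num) (by norm_num)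
    (by norm_num) (by norm_num) (by norm_num) (by norm_num) (by norm_num) (by norm_num)
    (by norm_num) (by norm_num [TL]) (by norm_num) (by norm_num) s h1 h2

lemma st_2_45 (s : ℝ) (h1 : 2.45 + 1 ≤ s) (h2 : s ≤ 2.75 + 1) :
    1 - fS (s - 1) ≤ 0.13 * Real.exp (-2 * (s - 2.02)) * (4 * s - 1) :=
  step 2.45 2.75 0.1278 0.0519 1.56524 1.20415 1.56525 (by norm_num) (by norm_num) (by norm_num) (by norm_num)
    (by norm_num) (by norm_num) (by norm_num) (by norm_num) (by norm_num) (by norm_num)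
    (by norm_num) (by norm_num [TL]) (by norm_num) (by norm_num) s h1 h2

lemma st_2_75 (s : ℝ) (h1 : 2.75 + 1 ≤ s) (h2 : s ≤ 3 + 1) :
    1 - fS (s - 1) ≤ 0.13 * Real.exp (-2 * (s - 2.02)) * (4 * s - 1) :=
  step 2.75 3 0.0541 0.0327 1.65831 1.32287 1.65832 (by norm_num) (by norm_num) (by norm_num) (by norm_num)
    (by norm_num) (by norm_num) (by norm_num) (by norm_num) (by norm_num) (by norm_num)
    (by norm_num) (by norm_num [TL]) (by norm_num) (by norm_num) s h1 h2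

end C4_

open C4_ in
theorem nu2 : NU2 := by
  intro s h1 h2
  rcases le_total s (1.0295 + 1) with h | h
  · exact st_1_02 s (by linarith) h
  rcases le_total s (1.055 + 1) with h' | h'
  · exact st_1_0295 s h h'
  rcases le_total s (1.13 + 1) with h3 | h3
  · exact st_1_055 s h' h3
  rcases le_total s (1.3 + 1) with h4 | h4
  · exact st_1_13 s h3 h4
  rcases le_total s (1.55 + 1) with h5 | h5
  · exact st_1_3 s h4 h5
  rcases le_total s (1.85 + 1) with h6 | h6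
  · exact st_1_55 s h5 h6
  rcases le_total s (2.15 + 1) with h7 | h7
  · exact st_1_85 s h6 h7
  rcases le_total s (2.45 + 1) with h8 | h8
  · exact st_2_15 s h7 h8
  rcases le_total s (2.75 + 1) with h9 | h9
  · exact st_2_45 s h8 h9
  · exact st_2_75 s h9 (by linarith)

end Pool.Agent.H95R2.TI
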