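import Mathlib
import Pool.Agent.H95R2.TI.Defs

set_option autoImplicit false

open Finset Filter

namespace Pool.Agent.H95R2.TI

open scoped Classical

namespace NU3_

theorem exp_bd : (0.019 : ℝ) ≤ Real.exp (-3.96) := by
  have h1 : Real.exp (-3.96) = Real.exp (0.04) * (Real.exp 1)⁻¹ ^ 4 := by
    rw [← Real.exp_neg, ← Real.exp_nat_mul, ← Real.exp_add]
    congr 1
    norm_num
  have h2 : (1 : ℝ) + 0.04 ≤ Real.exp 0.04 := by
    have := Real.add_one_le_exp (0.04 : ℝ)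
    linarith
  have h3 : Real.exp 1 < 2.7182818286 := Real.exp_one_lt_d9
  have h4 : (2.7182818286 : ℝ)⁻¹ ≤ (Real.exp 1)⁻¹ := inv_anti₀ (Real.exp_pos 1) h3.le
  have h5 : (2.7182818286 : ℝ)⁻¹ ^ 4 ≤ (Real.exp 1)⁻¹ ^ 4 := pow_le_pow_left₀ (by norm_num) h4 4
  rw [h1]
  calc (0.019 : ℝ) ≤ (1 + 0.04) * (2.7182818286 : ℝ)⁻¹ ^ 4 := by norm_num
    _ ≤ Real.exp 0.04 * (Real.exp 1)⁻¹ ^ 4 := mul_le_mul h2 h5 (by positivity) (Real.exp_pos _).le

end NU3_

theorem nu3 : NU3 := by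
  intro s hs
  have hf : fS (s - 1) = 1 - 0.013 * Real.exp (-2 * (s - 4)) := by
    unfold fS
    rcases eq_or_lt_of_le hs with h | h
    · subst h
      rw [if_pos (by norm_num)]
      have e : (4 : ℝ) - 1 = 3 := by norm_num
      rw [e, sub_self, mul_zero, sub_zero, sub_self, mul_zero, Real.exp_zero]
      have h3 : Real.sqrt 3 ≠ 0 := by positivity
      field_simp
    · rw [if_neg (by linarith)]
      congr 3
      ring
  rw [hf]
  have e : Real.exp (-2 * (s - 2.02)) = Real.exp (-2 * (s - 4)) * Real.exp (-3.96) := by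
    rw [← Real.exp_add]
    congr 1
    ring
  rw [e]
  have h0 : 0 < Real.exp (-2 * (s - 4)) := Real.exp_pos _
  have h1 := NU3_.exp_bd
  have h2 : (0.019 : ℝ) * 15 ≤ Real.exp (-3.96) * (4 * s - 1) :=
    mul_le_mul h1 (by linarith) (by norm_num) (Real.exp_pos _).le
  have h3 : Real.exp (-2 * (s - 4)) * (0.019 * 15) ≤
      Real.exp (-2 * (s - 4)) * (Real.exp (-3.96) * (4 * s - 1)) :=
    mul_le_mul_of_nonneg_left h2 h0.le
  nlinarith

end Pool.Agent.H95R2.TI
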