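import Mathlib
import Pool.Agent.H95R2.TI.Defs

set_option autoImplicit false

open Finset Filter

namespace Pool.Agent.H95R2.TI

open scoped Classical

namespace C6_

theorem exp_lb : (2.5955 : ℝ) ≤ Real.exp 0.954 := by
  have h := Real.sum_le_exp_of_nonneg (x := 0.954) (by norm_num) 9
  refine le_trans ?_ h
  simp only [Finset.sum_range_succ, Finset.sum_range_zero, Nat.factorial]
  norm_num

theorem sqrt3_lb : (1.73205 : ℝ) ≤ Real.sqrt 3 := by
  apply Real.le_sqrt_of_sq_le; norm_num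

theorem sqrt3_ub : Real.sqrt 3 ≤ 1.732051 := by
  rw [Real.sqrt_le_left (by norm_num)]; norm_num

theorem sqrt2_ub : Real.sqrt 2 ≤ 1.414214 := by
  rw [Real.sqrt_le_left (by norm_num)]; norm_num

theorem sqrta_lb : (1.01857 : ℝ) ≤ Real.sqrt 1.0375 := by
  apply Real.le_sqrt_of_sq_le; norm_num

theorem sqrta_ub : Real.sqrt 1.0375 ≤ 1.0186 := by
  rw [Real.sqrt_le_left (by norm_num)]; norm_num

theorem sqrtb_lb : (0.19364 : ℝ) ≤ Real.sqrt 0.0375 := by
  apply Real.le_sqrt_of_sq_le; norm_num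

theorem sqrtc_ub : Real.sqrt 2.02 ≤ 1.42127 := by
  rw [Real.sqrt_le_left (by norm_num)]; norm_num

theorem lg_diff : Lg 3 - Lg 1.0375 ≤ 0.954 := by
  unfold Lg
  have e1 : (3 : ℝ) - 1 = 2 := by norm_num
  have e2 : (1.0375 : ℝ) - 1 = 0.0375 := by norm_num
  rw [e1, e2]
  have hb : (0 : ℝ) < Real.sqrt 1.0375 + Real.sqrt 0.0375 := by
    have := sqrta_lb
    have := sqrtb_lb
    linarith
  have ha : (0 : ℝ) < Real.sqrt 3 + Real.sqrt 2 := by
    have := sqrt3_lb
    have := Real.sqrt_nonneg (2 : ℝ)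
    linarith
  rw [← Real.log_div ha.ne' hb.ne', Real.log_le_iff_le_exp (div_pos ha hb)]
  refine le_trans ?_ exp_lb
  rw [div_le_iff₀ hb]
  have h1 := sqrt3_ub
  have h2 := sqrt2_ub
  have h3 := sqrta_lb
  have h4 := sqrtb_lb
  linarith

end C6_

open C6_ in
theorem topn : TOPN := by
  unfold TOPN fS
  have e0 : (0.498 : ℝ) / 0.48 = 1.0375 := by norm_num
  rw [e0, if_pos (by norm_num)]
  have hs : 0 < Real.sqrt 1.0375 := Real.sqrt_pos.2 (by norm_num)
  rw [le_div_iff₀ hs]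
  have h1 := sqrt3_lb
  have h2 := sqrta_ub
  have h3 := lg_diff
  have h4 : cA ≤ 1.13 * 1.42127 := by
    unfold cA
    exact mul_le_mul_of_nonneg_left sqrtc_ub (by norm_num)
  have h5 : 0 ≤ cA := by unfold cA; positivity
  have h6 : cA * (Lg 3 - Lg 1.0375) ≤ (1.13 * 1.42127) * 0.954 := by
    calc cA * (Lg 3 - Lg 1.0375) ≤ cA * 0.954 := mul_le_mul_of_nonneg_left h3 h5
      _ ≤ (1.13 * 1.42127) * 0.954 := mul_le_mul_of_nonneg_right h4 (by norm_num)
  nlinarith

end Pool.Agent.H95R2.TI
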