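import Mathlib
import Pool.Agent.H95R2.TI.Defs
set_option autoImplicit false
open Finset Filter
namespace Pool.Agent.H95R2.TI
open scoped Classical

namespace C7_

/-- Lipschitz with constant `K` on a set -/
def Li (G : ℝ → ℝ) (K : ℝ) (S : Set ℝ) : Prop := ∀ a ∈ S, ∀ b ∈ S, |G a - G b| ≤ K * |a - b|

theorem glue (G : ℝ → ℝ) (K m c : ℝ) (h1 : Li G K (Set.Icc m c)) (h2 : Li G K (Set.Ici c))
    (hmc : m ≤ c) : Li G K (Set.Ici m) := by
  have key : ∀ a b : ℝ, m ≤ a → a ≤ b → |G a - G b| ≤ K * |a - b| := by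
    intro a b ha hab
    by_cases hb : b ≤ c
    · exact h1 a ⟨ha, hab.trans hb⟩ b ⟨ha.trans hab, hb⟩
    · have hb' := lt_of_not_ge hb
      by_cases hac : c ≤ a
      · exact h2 a hac b hb'.le
      · have hac' := lt_of_not_ge hac
        have e1 := h1 a ⟨ha, hac'.le⟩ c ⟨hmc, le_rfl⟩
        have e2 := h2 c (Set.mem_Ici.2 le_rfl) b hb'.le
        have e3 : |G a - G b| ≤ |G a - G c| + |G c - G b| := abs_sub_le _ _ _
        rw [abs_of_nonpos (by linarith : a - c ≤ 0)] at e1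
        rw [abs_of_nonpos (by linarith : c - b ≤ 0)] at e2
        rw [abs_of_nonpos (by linarith : a - b ≤ 0)]
        nlinarith
  intro a ha b hb
  rcases le_total a b with h | h
  · exact key a b ha h
  · rw [abs_sub_comm, abs_sub_comm a b]
    exact key b a hb h

theorem li_mono {G : ℝ → ℝ} {K K' : ℝ} {S : Set ℝ} (h : Li G K S) (hK : K ≤ K') : Li G K' S :=
  fun a ha b hb => (h a ha b hb).trans (mul_le_mul_of_nonneg_right hK (abs_nonneg _))

theorem li_congr {G H : ℝ → ℝ} {K : ℝ} {S : Set ℝ} (h : Li G K S) (e : ∀ a ∈ S, G a = H a) :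
    Li H K S := by
  intro a ha b hb
  rw [← e a ha, ← e b hb]
  exact h a ha b hb

theorem li_mul {G H : ℝ → ℝ} {K L B C : ℝ} {S : Set ℝ} (hG : Li G K S) (hH : Li H L S)
    (hB : ∀ a ∈ S, |G a| ≤ B) (hC : ∀ a ∈ S, |H a| ≤ C) (hK : 0 ≤ K) :
    Li (fun a => G a * H a) (K * C + B * L) S := by
  intro a ha b hb
  have e : G a * H a - G b * H b = (G a - G b) * H a + G b * (H a - H b) := by ring
  show |G a * H a - G b * H b| ≤ _
  rw [e]
  refine (abs_add_le _ _).trans ?_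
  rw [abs_mul, abs_mul, add_mul]
  refine add_le_add ?_ ?_
  · calc |G a - G b| * |H a| ≤ (K * |a - b|) * C :=
          mul_le_mul (hG a ha b hb) (hC a ha) (abs_nonneg _) (by positivity)
      _ = K * C * |a - b| := by ring
  · calc |G b| * |H a - H b| ≤ B * (L * |a - b|) :=
          mul_le_mul (hB b hb) (hH a ha b hb) (abs_nonneg _) ((abs_nonneg _).trans (hB b hb))
      _ = B * L * |a - b| := by ring

/-- square root is Lipschitz away from zero -/
theorem sqrt_li (r a b : ℝ) (hr : 0 < r) (ha : r ^ 2 ≤ a) (hb : r ^ 2 ≤ b) :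
    |Real.sqrt a - Real.sqrt b| ≤ (2 * r)⁻¹ * |a - b| := by
  have h1 : r ≤ Real.sqrt a := Real.le_sqrt_of_sq_le ha
  have h2 : r ≤ Real.sqrt b := Real.le_sqrt_of_sq_le hb
  have ha0 : 0 ≤ a := (sq_nonneg r).trans ha
  have hb0 : 0 ≤ b := (sq_nonneg r).trans hb
  have e : a - b = (Real.sqrt a - Real.sqrt b) * (Real.sqrt a + Real.sqrt b) := by
    have := Real.mul_self_sqrt ha0
    have := Real.mul_self_sqrt hb0
    nlinarith
  have h3 : (0 : ℝ) < Real.sqrt a + Real.sqrt b := by linarith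
  have e2 : |a - b| = |Real.sqrt a - Real.sqrt b| * (Real.sqrt a + Real.sqrt b) := by
    rw [e, abs_mul, abs_of_pos h3]
  rw [e2]
  have h4 : 2 * r ≤ Real.sqrt a + Real.sqrt b := by linarith
  have h5 : 0 ≤ |Real.sqrt a - Real.sqrt b| := abs_nonneg _
  rw [inv_mul_eq_div, le_div_iff₀ (by positivity)]
  exact mul_le_mul_of_nonneg_left h4 h5

theorem inv_sqrt_li (r a b : ℝ) (hr : 0 < r) (ha : r ^ 2 ≤ a) (hb : r ^ 2 ≤ b) :
    |(Real.sqrt a)⁻¹ - (Real.sqrt b)⁻¹| ≤ (r⁻¹ * r⁻¹ * (2 * r)⁻¹) * |a - b| := by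
  have h1 : r ≤ Real.sqrt a := Real.le_sqrt_of_sq_le ha
  have h2 : r ≤ Real.sqrt b := Real.le_sqrt_of_sq_le hb
  have p1 : 0 < Real.sqrt a := by linarith
  have p2 : 0 < Real.sqrt b := by linarith
  have e : (Real.sqrt a)⁻¹ - (Real.sqrt b)⁻¹ =
      ((Real.sqrt a)⁻¹ * (Real.sqrt b)⁻¹) * (Real.sqrt b - Real.sqrt a) := by
    field_simp
  rw [e, abs_mul, abs_of_pos (by positivity : 0 < (Real.sqrt a)⁻¹ * (Real.sqrt b)⁻¹)]
  have h3 := sqrt_li r b a hr hb ha
  rw [abs_sub_comm b a] at h3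
  have h4 : (Real.sqrt a)⁻¹ * (Real.sqrt b)⁻¹ ≤ r⁻¹ * r⁻¹ :=
    mul_le_mul (inv_anti₀ hr h1) (inv_anti₀ hr h2) (by positivity) (by positivity)
  calc (Real.sqrt a)⁻¹ * (Real.sqrt b)⁻¹ * |Real.sqrt b - Real.sqrt a|
      ≤ (r⁻¹ * r⁻¹) * ((2 * r)⁻¹ * |a - b|) :=
        mul_le_mul h4 h3 (abs_nonneg _) (by positivity)
    _ = _ := by ring

theorem exp_li (x y : ℝ) (hx : 0 ≤ x) (hy : 0 ≤ y) :
    |Real.exp (-x) - Real.exp (-y)| ≤ |x - y| := by
  have key : ∀ x y : ℝ, 0 ≤ x → x ≤ y → |Real.exp (-x) - Real.exp (-y)| ≤ |x - y| := by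
    intro x y hx hxy
    have h1 : Real.exp (-y) ≤ Real.exp (-x) := Real.exp_le_exp.2 (by linarith)
    rw [abs_of_nonneg (by linarith), abs_of_nonpos (by linarith)]
    have h2 : Real.exp (-y) = Real.exp (-x) * Real.exp (-(y - x)) := by
      rw [← Real.exp_add]; congr 1; ring
    have h3 : 1 - (y - x) ≤ Real.exp (-(y - x)) := by
      have := Real.add_one_le_exp (-(y - x)); linarith
    have h4 : Real.exp (-x) ≤ 1 := Real.exp_le_one_iff.2 (by linarith)
    have h5 : 0 < Real.exp (-x) := Real.exp_pos _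
    rw [h2]
    nlinarith
  rcases le_total x y with h | h
  · exact key x y hx h
  · rw [abs_sub_comm, abs_sub_comm x y]
    exact key y x hy h

theorem log_li (x y : ℝ) (hx : 1 ≤ x) (hy : 1 ≤ y) : |Real.log x - Real.log y| ≤ |x - y| := by
  have key : ∀ x y : ℝ, 1 ≤ x → x ≤ y → |Real.log x - Real.log y| ≤ |x - y| := by
    intro x y hx hxy
    have h1 : Real.log x ≤ Real.log y := Real.log_le_log (by linarith) hxy
    rw [abs_of_nonpos (by linarith), abs_of_nonpos (by linarith)]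
    have h2 : Real.log y - Real.log x = Real.log (y / x) := by
      rw [Real.log_div (by linarith) (by linarith)]
    have h3 : Real.log (y / x) ≤ y / x - 1 := Real.log_le_sub_one_of_pos (div_pos (by linarith) (by linarith))
    have h4 : y / x - 1 ≤ y - x := by
      have : y / x - 1 = (y - x) / x := by field_simp
      rw [this]
      exact div_le_self (by linarith) hx
    linarith
  rcases le_total x y with h | h
  · exact key x y hx h
  · rw [abs_sub_comm, abs_sub_comm x y]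
    exact key y x hy h

theorem cA_pos : 0 < cA := by unfold cA; positivity

theorem FS_lip : ∃ K : ℝ, 0 ≤ K ∧ Li FS K (Set.Ici 0.02) := by
  set K1 : ℝ := cA * ((0.14 : ℝ)⁻¹ * (0.14 : ℝ)⁻¹ * (2 * 0.14 : ℝ)⁻¹) with hK1
  have hK1' : 0 ≤ K1 := by have := cA_pos; positivity
  refine ⟨max K1 0.26, le_max_of_le_left hK1', ?_⟩
  refine glue FS _ 0.02 2.02 ?_ ?_ (by norm_num)
  · refine li_mono ?_ (le_max_left K1 0.26)
    intro a ha b hb
    rw [FS, FS, if_pos ha.2, if_pos hb.2, div_eq_mul_inv, div_eq_mul_inv, ← mul_sub, abs_mul,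
      abs_of_pos cA_pos, hK1, mul_assoc]
    refine mul_le_mul_of_nonneg_left ?_ cA_pos.le
    refine inv_sqrt_li 0.14 a b (by norm_num) ?_ ?_
    · have := ha.1; norm_num at this ⊢; linarith
    · have := hb.1; norm_num at this ⊢; linarith
  · refine li_mono ?_ (le_max_right K1 0.26)
    have e : ∀ a ∈ Set.Ici (2.02 : ℝ), 1 + 0.13 * Real.exp (-(2 * (a - 2.02))) = FS a := by
      intro a ha
      rcases eq_or_lt_of_le (Set.mem_Ici.1 ha) with h | h
      · rw [← h, FS, if_pos le_rfl, cA, mul_div_assoc, div_self (by positivity)]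
        norm_num
      · rw [FS, if_neg (not_le.2 h)]
        congr 3
        ring
    refine li_congr ?_ e
    intro a ha b hb
    have h := exp_li (2 * (a - 2.02)) (2 * (b - 2.02))
      (by have := Set.mem_Ici.1 ha; linarith) (by have := Set.mem_Ici.1 hb; linarith)
    have e1 : 2 * (a - 2.02) - 2 * (b - 2.02) = 2 * (a - b) := by ring
    rw [e1, abs_mul, abs_two] at h
    have e2 : 1 + 0.13 * Real.exp (-(2 * (a - 2.02))) - (1 + 0.13 * Real.exp (-(2 * (b - 2.02))))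
        = 0.13 * (Real.exp (-(2 * (a - 2.02))) - Real.exp (-(2 * (b - 2.02)))) := by ring
    rw [e2, abs_mul, abs_of_pos (by norm_num : (0 : ℝ) < 0.13)]
    linarith

theorem FS_bd : ∃ B : ℝ, 0 ≤ B ∧ ∀ a ∈ Set.Ici (0.02 : ℝ), |FS a| ≤ B := by
  have hc := cA_pos
  refine ⟨max (cA * (0.14 : ℝ)⁻¹) 2, le_max_of_le_right (by norm_num), ?_⟩
  intro a ha
  have ha' := Set.mem_Ici.1 ha
  rw [FS]
  split_ifs with h
  · refine le_max_of_le_left ?_
    have h1 : 0.14 ≤ Real.sqrt a := Real.le_sqrt_of_sq_le (by norm_num at ha' ⊢; linarith)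
    rw [abs_of_nonneg (by positivity), div_eq_mul_inv]
    exact mul_le_mul_of_nonneg_left (inv_anti₀ (by norm_num) h1) hc.le
  · refine le_max_of_le_right ?_
    have h1 : Real.exp (-2 * (a - 2.02)) ≤ 1 :=
      Real.exp_le_one_iff.2 (by have := lt_of_not_ge h; linarith)
    have h2 := Real.exp_pos (-2 * (a - 2.02))
    rw [abs_of_nonneg (by positivity)]
    linarith

theorem Lg_lip : Li Lg 5 (Set.Icc 1.02 3) := by
  intro a ha b hb
  have h1 : |Real.sqrt a - Real.sqrt b| ≤ (2 * 1 : ℝ)⁻¹ * |a - b| :=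
    sqrt_li 1 a b one_pos (by have := ha.1; norm_num at this ⊢; linarith)
      (by have := hb.1; norm_num at this ⊢; linarith)
  have h2 : |Real.sqrt (a - 1) - Real.sqrt (b - 1)| ≤ (2 * 0.14 : ℝ)⁻¹ * |(a - 1) - (b - 1)| :=
    sqrt_li 0.14 (a - 1) (b - 1) (by norm_num) (by have := ha.1; norm_num at this ⊢; linarith)
      (by have := hb.1; norm_num at this ⊢; linarith)
  have e1 : (a - 1) - (b - 1) = a - b := by ring
  rw [e1] at h2
  have g1 : 1 ≤ Real.sqrt a + Real.sqrt (a - 1) := by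
    have : 1 ≤ Real.sqrt a := Real.one_le_sqrt.2 (by have := ha.1; linarith)
    have := Real.sqrt_nonneg (a - 1)
    linarith
  have g2 : 1 ≤ Real.sqrt b + Real.sqrt (b - 1) := by
    have : 1 ≤ Real.sqrt b := Real.one_le_sqrt.2 (by have := hb.1; linarith)
    have := Real.sqrt_nonneg (b - 1)
    linarith
  have h3 := log_li _ _ g1 g2
  rw [Lg, Lg]
  refine h3.trans ?_
  have e2 : Real.sqrt a + Real.sqrt (a - 1) - (Real.sqrt b + Real.sqrt (b - 1)) =
    (Real.sqrt a - Real.sqrt b) + (Real.sqrt (a - 1) - Real.sqrt (b - 1)) := by ring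
  rw [e2]
  refine (abs_add_le _ _).trans ?_
  have h4 : 0 ≤ |a - b| := abs_nonneg _
  norm_num at h1 h2
  linarith

/-- numerator of `fS` on `[1,3]` -/
noncomputable def Nu (s : ℝ) : ℝ := Real.sqrt 3 * (1 - 0.013) - cA * (Lg 3 - Lg s)

theorem Nu_lip : Li Nu (cA * 5) (Set.Icc 1.02 3) := by
  intro a ha b hb
  have h := Lg_lip a ha b hb
  have e : Nu a - Nu b = cA * (Lg a - Lg b) := by unfold Nu; ring
  rw [e, abs_mul, abs_of_pos cA_pos, mul_assoc]
  exact mul_le_mul_of_nonneg_left h cA_pos.le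

theorem Nu_bd : ∃ B : ℝ, 0 ≤ B ∧ ∀ a ∈ Set.Icc (1.02 : ℝ) 3, |Nu a| ≤ B := by
  refine ⟨|Nu 3| + cA * 5 * 2, by have := cA_pos; positivity, ?_⟩
  intro a ha
  have h := Nu_lip a ha 3 ⟨by norm_num, le_rfl⟩
  have h1 : |a - 3| ≤ 2 := by
    rw [abs_le]
    have h1 := ha.1
    have h2 := ha.2
    norm_num at h1
    constructor <;> linarith
  have h2 : |Nu a| ≤ |Nu 3| + |Nu a - Nu 3| := by
    have := abs_add_le (Nu 3) (Nu a - Nu 3)
    rwa [add_sub_cancel] at this
  have h3 : cA * 5 * |a - 3| ≤ cA * 5 * 2 :=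
    mul_le_mul_of_nonneg_left h1 (by have := cA_pos; positivity)
  linarith

theorem isq_li (S : Set ℝ) (hS : ∀ a ∈ S, 1 ≤ a) : Li (fun s => (Real.sqrt s)⁻¹) 1 S := by
  intro a ha b hb
  have h := inv_sqrt_li 1 a b one_pos (by simpa using hS a ha) (by simpa using hS b hb)
  have h4 : 0 ≤ |a - b| := abs_nonneg _
  norm_num at h
  show |(Real.sqrt a)⁻¹ - (Real.sqrt b)⁻¹| ≤ 1 * |a - b|
  linarith

theorem isq_bd (a : ℝ) (ha : 1 ≤ a) : |(Real.sqrt a)⁻¹| ≤ 1 := by
  rw [abs_of_nonneg (by positivity)]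
  exact inv_le_one_of_one_le₀ (Real.one_le_sqrt.2 ha)

theorem fS_lip : ∃ K : ℝ, 0 ≤ K ∧ Li fS K (Set.Ici 1.02) := by
  obtain ⟨B, hB0, hB⟩ := Nu_bd
  have hc := cA_pos
  have hS : ∀ a ∈ Set.Icc (1.02 : ℝ) 3, 1 ≤ a := by
    intro a ha
    have := ha.1
    norm_num at this
    linarith
  set K1 : ℝ := cA * 5 * 1 + B * 1 with hK1
  have hK1' : 0 ≤ K1 := by positivity
  refine ⟨max K1 0.026, le_max_of_le_left hK1', ?_⟩
  refine glue fS _ 1.02 3 ?_ ?_ (by norm_num)
  · refine li_mono ?_ (le_max_left K1 0.026)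
    have h := li_mul Nu_lip (isq_li _ hS) hB (fun a ha => isq_bd a (hS a ha))
      (by positivity)
    refine li_congr h ?_
    intro a ha
    show Nu a * (Real.sqrt a)⁻¹ = fS a
    rw [fS, if_pos ha.2, div_eq_mul_inv, Nu]
  · refine li_mono ?_ (le_max_right K1 0.026)
    have e : ∀ a ∈ Set.Ici (3 : ℝ), 1 - 0.013 * Real.exp (-(2 * (a - 3))) = fS a := by
      intro a ha
      rcases eq_or_lt_of_le (Set.mem_Ici.1 ha) with h | h
      · have e0 : (Real.sqrt 3 * (1 - 0.013) - cA * (Lg 3 - Lg 3)) / Real.sqrt 3 = 1 - 0.013 := by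
          rw [sub_self (Lg 3), mul_zero, sub_zero, mul_comm (Real.sqrt 3),
            mul_div_assoc, div_self (by positivity), mul_one]
        rw [← h, fS, if_pos le_rfl, e0]
        norm_num
      · rw [fS, if_neg (not_le.2 h)]
        congr 3
        ring
    refine li_congr ?_ e
    intro a ha b hb
    have h := exp_li (2 * (a - 3)) (2 * (b - 3))
      (by have := Set.mem_Ici.1 ha; linarith) (by have := Set.mem_Ici.1 hb; linarith)
    have e1 : 2 * (a - 3) - 2 * (b - 3) = 2 * (a - b) := by ring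
    rw [e1, abs_mul, abs_two] at h
    have e2 : 1 - 0.013 * Real.exp (-(2 * (a - 3))) - (1 - 0.013 * Real.exp (-(2 * (b - 3))))
        = -(0.013 * (Real.exp (-(2 * (a - 3))) - Real.exp (-(2 * (b - 3))))) := by ring
    rw [e2, abs_neg, abs_mul, abs_of_pos (by norm_num : (0 : ℝ) < 0.013)]
    linarith

theorem fS_bd : ∃ B : ℝ, 0 ≤ B ∧ ∀ a ∈ Set.Ici (1.02 : ℝ), |fS a| ≤ B := by
  obtain ⟨B, hB0, hB⟩ := Nu_bd
  refine ⟨max B 2, le_max_of_le_right (by norm_num), ?_⟩
  intro a ha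
  have ha' := Set.mem_Ici.1 ha
  by_cases h : a ≤ 3
  · refine le_max_of_le_left ?_
    have h1 := hB a ⟨ha', h⟩
    have h2 := isq_bd a (by norm_num at ha'; linarith)
    have e : fS a = Nu a * (Real.sqrt a)⁻¹ := by rw [fS, if_pos h, div_eq_mul_inv, Nu]
    rw [e, abs_mul]
    calc |Nu a| * |(Real.sqrt a)⁻¹| ≤ B * 1 := mul_le_mul h1 h2 (abs_nonneg _) hB0
      _ = B := mul_one B
  · refine le_max_of_le_right ?_
    have h1 : Real.exp (-2 * (a - 3)) ≤ 1 :=
      Real.exp_le_one_iff.2 (by have := lt_of_not_ge h; linarith)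
    have h2 := Real.exp_pos (-2 * (a - 3))
    rw [fS, if_neg h, abs_of_nonneg (by nlinarith)]
    linarith

theorem comp_li (G : ℝ → ℝ) (K B m M : ℝ) (hK : 0 ≤ K) (hM : 1 ≤ M)
    (hG : Li G K (Set.Ici m)) (hB : ∀ a ∈ Set.Ici m, |G a| ≤ B) (Y U : ℝ) (hYM : Y ≤ M)
    (hY0 : 0 ≤ Y) (hm : ∀ s ∈ Set.Icc 1 U, m ≤ (Y - s) / s) :
    (∀ s ∈ Set.Icc 1 U, ∀ t ∈ Set.Icc 1 U,
      |(Real.sqrt s)⁻¹ * G ((Y - s) / s) - (Real.sqrt t)⁻¹ * G ((Y - t) / t)| ≤
        (B + K * M) * |s - t|) ∧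
    (∀ t ∈ Set.Icc 1 U, |(Real.sqrt t)⁻¹ * G ((Y - t) / t)| ≤ B + K * M) := by
  constructor
  · have h1 : Li (fun s => (Real.sqrt s)⁻¹) 1 (Set.Icc 1 U) := isq_li _ fun a ha => ha.1
    have h2 : Li (fun s => G ((Y - s) / s)) (K * M) (Set.Icc 1 U) := by
      intro s hs t ht
      have h3 := hG _ (hm s hs) _ (hm t ht)
      refine h3.trans ?_
      rw [mul_assoc]
      refine mul_le_mul_of_nonneg_left ?_ hK
      have hs1 : 1 ≤ s := hs.1
      have ht1 : 1 ≤ t := ht.1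
      have e : (Y - s) / s - (Y - t) / t = (Y / (s * t)) * (-(s - t)) := by
        field_simp
        ring
      rw [e, abs_mul, abs_neg, abs_of_nonneg (by positivity)]
      refine mul_le_mul_of_nonneg_right ?_ (abs_nonneg _)
      exact (div_le_self hY0 (by nlinarith)).trans hYM
    have h3 := li_mul h1 h2 (fun a ha => isq_bd a ha.1) (fun a ha => hB _ (hm a ha))
      zero_le_one
    intro s hs t ht
    have h4 := h3 s hs t ht
    have e : 1 * B + 1 * (K * M) = B + K * M := by ring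
    rw [e] at h4
    exact h4
  · intro t ht
    rw [abs_mul]
    have h1 := isq_bd t ht.1
    have h2 := hB _ (hm t ht)
    have h3 : |(Real.sqrt t)⁻¹| * |G ((Y - t) / t)| ≤ 1 * B :=
      mul_le_mul h1 h2 (abs_nonneg _) zero_le_one
    have h4 : 0 ≤ K * M := by positivity
    linarith

end C7_

open C7_ in
theorem lip : LIP := by
  intro M hM
  obtain ⟨K1, hK1, hL1⟩ := FS_lip
  obtain ⟨B1, hB1, hb1⟩ := FS_bd
  obtain ⟨K2, hK2, hL2⟩ := fS_lip
  obtain ⟨B2, hB2, hb2⟩ := fS_bd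
  have hM0 : 0 ≤ M := by linarith
  refine ⟨max (B1 + K1 * M) (B2 + K2 * M), le_max_of_le_left (by positivity), ?_⟩
  intro Y U hU hY
  constructor
  · intro hUY
    have h := comp_li FS K1 B1 0.02 M hK1 hM hL1 hb1 Y U hY (by norm_num at hUY; linarith) (by
      intro s hs
      have h1 := hs.1
      have h2 := hs.2
      rw [le_div_iff₀ (by linarith)]
      norm_num at hUY ⊢
      linarith)
    exact ⟨fun s hs t ht => (h.1 s hs t ht).trans
      (mul_le_mul_of_nonneg_right (le_max_left _ _) (abs_nonneg _)),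
      fun t ht => (h.2 t ht).trans (le_max_left _ _)⟩
  · intro hUY
    have h := comp_li fS K2 B2 1.02 M hK2 hM hL2 hb2 Y U hY (by norm_num at hUY; linarith) (by
      intro s hs
      have h1 := hs.1
      have h2 := hs.2
      rw [le_div_iff₀ (by linarith)]
      norm_num at hUY ⊢
      linarith)
    exact ⟨fun s hs t ht => (h.1 s hs t ht).trans
      (mul_le_mul_of_nonneg_right (le_max_right _ _) (abs_nonneg _)),
      fun t ht => (h.2 t ht).trans (le_max_right _ _)⟩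

end Pool.Agent.H95R2.TI
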