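import Mathlib
import Pool.Agent.H95R2.TI.Defs

set_option autoImplicit false

open Finset Filter

namespace Pool.Agent.H95R2.TI

open scoped Classical

namespace E1_

/-- integers `1 ≤ l ≤ T` without a divisor in `P` -/
noncomputable def L (P : Finset ℕ) (T : ℝ) : Finset ℕ :=
  (Icc 1 ⌊T⌋₊).filter (fun l : ℕ => ∀ p ∈ P, ¬ p ∣ l)

noncomputable def G (P : Finset ℕ) (f : ℝ → ℝ) (T : ℝ) : ℝ := ∑ l ∈ L P T, f (T / l) / l

theorem mem_L {P : Finset ℕ} {T : ℝ} {l : ℕ} : l ∈ L P T ↔ (1 ≤ l ∧ (l : ℝ) ≤ T) ∧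
    ∀ p ∈ P, ¬ p ∣ l := by
  unfold L
  rw [mem_filter, mem_Icc]
  constructor
  · rintro ⟨⟨h1, h2⟩, h3⟩
    refine ⟨⟨h1, ?_⟩, h3⟩
    by_cases hT : 0 ≤ T
    · exact (Nat.le_floor_iff hT).1 h2
    · push Not at hT
      rw [Nat.floor_of_nonpos hT.le] at h2
      omega
  · rintro ⟨⟨h1, h2⟩, h3⟩
    exact ⟨⟨h1, Nat.le_floor h2⟩, h3⟩

theorem G_step (P : Finset ℕ) (p : ℕ) (hp : 1 ≤ p) (f : ℝ → ℝ) (h0 : ∀ t, 1 ≤ t → 0 ≤ f t)
    (hm : ∀ s t, 1 ≤ s → s ≤ t → f s ≤ f t) (T : ℝ) :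
    (1 - 1 / (p : ℝ)) * G P f T ≤ G (insert p P) f T := by
  have hsplit : G P f T = G (insert p P) f T +
      ∑ l ∈ (L P T).filter (fun l => p ∣ l), f (T / l) / l := by
    unfold G
    rw [← Finset.sum_filter_add_sum_filter_not (L P T) (fun l => ¬ p ∣ l)]
    congr 1
    · apply Finset.sum_congr _ (fun _ _ => rfl)
      ext l
      rw [mem_filter, mem_L, mem_L]
      constructor
      · rintro ⟨⟨h1, h2⟩, h3⟩
        refine ⟨h1, ?_⟩
        intro r hr
        rcases mem_insert.1 hr with h | h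
        · rw [h]; exact h3
        · exact h2 r h
      · rintro ⟨h1, h2⟩
        exact ⟨⟨h1, fun r hr => h2 r (mem_insert_of_mem hr)⟩, h2 p (mem_insert_self _ _)⟩
    · apply Finset.sum_congr _ (fun _ _ => rfl)
      ext l
      simp
  have hp0 : (0 : ℝ) < p := by exact_mod_cast hp
  have hp1 : (1 : ℝ) ≤ p := by exact_mod_cast hp
  have hle : ∑ l ∈ (L P T).filter (fun l => p ∣ l), f (T / l) / l ≤ 1 / (p : ℝ) * G P f T := by
    have hinj : Set.InjOn (fun l : ℕ => l / p) ((L P T).filter (fun l => p ∣ l)) := by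
      intro a ha b hb hab
      have ha' := (mem_filter.1 (Finset.mem_coe.1 ha)).2
      have hb' := (mem_filter.1 (Finset.mem_coe.1 hb)).2
      simp only at hab
      rw [← Nat.mul_div_cancel' ha', ← Nat.mul_div_cancel' hb', hab]
    have e1 : ∑ l ∈ (L P T).filter (fun l => p ∣ l), f (T / l) / l =
        ∑ k ∈ ((L P T).filter (fun l => p ∣ l)).image (fun l : ℕ => l / p),
          f (T / ((p * k : ℕ) : ℝ)) / ((p * k : ℕ) : ℝ) := by
      rw [Finset.sum_image hinj]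
      apply Finset.sum_congr rfl
      intro l hl
      rw [Nat.mul_div_cancel' (mem_filter.1 hl).2]
    rw [e1]
    have hsub : ((L P T).filter (fun l => p ∣ l)).image (fun l : ℕ => l / p) ⊆ L P T := by
      intro k hk
      rw [mem_image] at hk
      obtain ⟨l, hl, rfl⟩ := hk
      rw [mem_filter, mem_L] at hl
      obtain ⟨⟨⟨h1, h2⟩, h3⟩, h4⟩ := hl
      rw [mem_L]
      refine ⟨⟨Nat.div_pos (Nat.le_of_dvd (by omega) h4) (by omega), ?_⟩, ?_⟩
      · have : ((l / p : ℕ) : ℝ) ≤ l := by exact_mod_cast Nat.div_le_self l p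
        linarith
      · intro r hr hd
        exact h3 r hr (hd.trans (Nat.div_dvd_of_dvd h4))
    have hfac : ∀ k ∈ ((L P T).filter (fun l => p ∣ l)).image (fun l : ℕ => l / p),
        f (T / ((p * k : ℕ) : ℝ)) / ((p * k : ℕ) : ℝ) ≤ 1 / (p : ℝ) * (f (T / k) / k) := by
      intro k hk
      have hk' := (mem_L.1 (hsub hk)).1
      have hk0 : (0 : ℝ) < k := by exact_mod_cast hk'.1
      have hpk : ((p * k : ℕ) : ℝ) ≤ T := by
        rw [mem_image] at hk
        obtain ⟨l, hl, rfl⟩ := hk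
        rw [mem_filter, mem_L] at hl
        rw [Nat.mul_div_cancel' hl.2]
        exact hl.1.1.2
      push_cast at hpk ⊢
      have h1 : f (T / (p * k)) ≤ f (T / k) := by
        apply hm
        · rw [le_div_iff₀ (by positivity)]
          linarith
        · apply div_le_div_of_nonneg_left
          · nlinarith
          · exact hk0
          · nlinarith
      calc f (T / (p * k)) / (p * k) ≤ f (T / k) / (p * k) := by gcongr
        _ = 1 / (p : ℝ) * (f (T / k) / k) := by field_simp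
    calc _ ≤ ∑ k ∈ ((L P T).filter (fun l => p ∣ l)).image (fun l : ℕ => l / p),
          1 / (p : ℝ) * (f (T / k) / k) := Finset.sum_le_sum hfac
      _ ≤ ∑ k ∈ L P T, 1 / (p : ℝ) * (f (T / k) / k) := by
          apply Finset.sum_le_sum_of_subset_of_nonneg hsub
          intro k hk _
          have hk' := (mem_L.1 hk).1
          have hk0 : (0 : ℝ) < k := by exact_mod_cast hk'.1
          have : 0 ≤ f (T / k) := h0 _ (by rw [le_div_iff₀ hk0]; linarith [hk'.2])
          positivity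
      _ = _ := by rw [← Finset.mul_sum]; rfl
  have : (1 - 1 / (p : ℝ)) * G P f T = G P f T - 1 / (p : ℝ) * G P f T := by ring
  rw [this]
  linarith

theorem G_prod (f : ℝ → ℝ) (h0 : ∀ t, 1 ≤ t → 0 ≤ f t)
    (hm : ∀ s t, 1 ≤ s → s ≤ t → f s ≤ f t) (T : ℝ) (P : Finset ℕ) :
    (∀ p ∈ P, 1 ≤ p) → (∏ p ∈ P, (1 - 1 / (p : ℝ))) * G ∅ f T ≤ G P f T := by
  induction P using Finset.induction_on with
  | empty => intro _; simp
  | insert p P hpP ih =>
    intro h
    have h1 := ih (fun r hr => h r (mem_insert_of_mem hr))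
    have hp := h p (mem_insert_self _ _)
    have h2 := G_step P p hp f h0 hm T
    rw [Finset.prod_insert hpP]
    have hp1 : (1 : ℝ) ≤ p := by exact_mod_cast hp
    have h3 : 0 ≤ 1 - 1 / (p : ℝ) := by
      rw [sub_nonneg, div_le_one (by linarith)]
      exact hp1
    calc (1 - 1 / (p : ℝ)) * (∏ p ∈ P, (1 - 1 / (p : ℝ))) * G ∅ f T =
        (1 - 1 / (p : ℝ)) * ((∏ p ∈ P, (1 - 1 / (p : ℝ))) * G ∅ f T) := by ring
      _ ≤ (1 - 1 / (p : ℝ)) * G P f T := mul_le_mul_of_nonneg_left h1 h3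
      _ ≤ _ := h2

theorem L_empty (T : ℝ) : L ∅ T = Icc 1 ⌊T⌋₊ := by
  unfold L
  simp

theorem base1 (T : ℝ) (_hT : 1 ≤ T) : Real.log T ≤ G ∅ (fun _ => 1) T := by
  unfold G
  rw [L_empty]
  have h := log_le_harmonic_floor T (by linarith)
  rw [harmonic_eq_sum_Icc] at h
  push_cast at h
  simpa [one_div] using h

theorem tele (T : ℝ) (hT : 1 ≤ T) : ∀ M : ℕ, 1 ≤ M → (M : ℝ) ≤ T →
    Real.log T ^ 2 / 2 ≤ ∑ a ∈ Ico 1 M, Real.log (T / a) / a + Real.log (T / M) ^ 2 / 2 := by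
  intro M hM
  induction M, hM using Nat.le_induction with
  | base => intro _; simp
  | succ M hM ih =>
    intro h
    push_cast at h
    have hM0 : (0 : ℝ) < M := by exact_mod_cast hM
    have h1 := ih (by linarith)
    rw [Finset.sum_Ico_succ_top hM]
    have hx : Real.log (T / (M + 1 : ℕ)) = Real.log (T / M) - Real.log (1 + 1 / M) := by
      rw [Real.log_div (by linarith) (by positivity), Real.log_div (by linarith) (by positivity)]
      have : (1 : ℝ) + 1 / M = ((M + 1 : ℕ) : ℝ) / M := by push_cast; field_simp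
      rw [this, Real.log_div (by positivity) (by positivity)]
      ring
    have hd : Real.log (1 + 1 / (M : ℝ)) ≤ 1 / M := by
      have := Real.log_le_sub_one_of_pos (show (0 : ℝ) < 1 + 1 / (M : ℝ) by positivity)
      linarith
    have hd0 : 0 ≤ Real.log (1 + 1 / (M : ℝ)) := Real.log_nonneg (by
      have : (0 : ℝ) ≤ 1 / M := by positivity
      linarith)
    have hy : 0 ≤ Real.log (T / (M + 1 : ℕ)) := by
      apply Real.log_nonneg
      rw [le_div_iff₀ (by positivity)]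
      push_cast
      linarith
    set x := Real.log (T / M) with hxdef
    set δ := Real.log (1 + 1 / (M : ℝ)) with hδ
    rw [hx] at hy ⊢
    have h5 : x / M = x * (1 / M) := by ring
    rw [h5]
    have hx0 : 0 ≤ x := by linarith
    have h6 : x * δ ≤ x * (1 / M) := mul_le_mul_of_nonneg_left hd hx0
    nlinarith [sq_nonneg δ, mul_nonneg hd0 hy]

theorem base2 (T : ℝ) (hT : 1 ≤ T) : Real.log T ^ 2 / 2 ≤ G ∅ Real.log T := by
  have hN1 : 1 ≤ ⌊T⌋₊ := Nat.le_floor (by simpa using hT)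
  have hN2 : ((⌊T⌋₊ : ℕ) : ℝ) ≤ T := Nat.floor_le (by linarith)
  have hN3 : T < (⌊T⌋₊ : ℝ) + 1 := Nat.lt_floor_add_one T
  have h := tele T hT ⌊T⌋₊ hN1 hN2
  unfold G
  rw [L_empty]
  have e : Icc 1 ⌊T⌋₊ = Ico 1 (⌊T⌋₊ + 1) := by
    ext a; rw [mem_Icc, mem_Ico]; omega
  rw [e, Finset.sum_Ico_succ_top hN1]
  set N := ⌊T⌋₊ with hN
  have hN0 : (0 : ℝ) < N := by exact_mod_cast hN1
  have hx0 : 0 ≤ Real.log (T / N) := Real.log_nonneg (by rw [le_div_iff₀ hN0]; linarith)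
  have hx1 : Real.log (T / N) ≤ 1 / N := by
    have h1 : T / N ≤ 1 + 1 / N := by
      rw [div_le_iff₀ hN0]
      have : (1 + 1 / (N : ℝ)) * N = N + 1 := by field_simp
      rw [this]; exact hN3.le
    have h2 := Real.log_le_sub_one_of_pos (show (0 : ℝ) < T / N by positivity)
    linarith
  have h5 : Real.log (T / N) / N = Real.log (T / N) * (1 / N) := by ring
  rw [h5]
  have h6 : Real.log (T / N) * Real.log (T / N) ≤ Real.log (T / N) * (1 / N) :=
    mul_le_mul_of_nonneg_left hx1 hx0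
  nlinarith [mul_nonneg hx0 hx0]

theorem conv (P : Finset ℕ) (hP : ∀ p ∈ P, p.Prime) (T : ℝ) :
    ∑ a ∈ L P T, (1 / (a : ℝ)) * G P (fun _ => 1) (T / a) =
      ∑ l ∈ L P T, (l.divisors.card : ℝ) / l := by
  have e1 : ∑ a ∈ L P T, (1 / (a : ℝ)) * G P (fun _ => 1) (T / a) =
      ∑ z ∈ (L P T).sigma (fun a => L P (T / a)), (1 / (z.1 : ℝ)) * (1 / (z.2 : ℝ)) := by
    rw [Finset.sum_sigma]
    apply Finset.sum_congr rfl
    intro a _
    unfold G
    rw [Finset.mul_sum]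
  have e2 : ∑ l ∈ L P T, (l.divisors.card : ℝ) / l =
      ∑ z ∈ (L P T).sigma (fun l => l.divisors), (1 / (z.1 : ℝ)) := by
    rw [Finset.sum_sigma]
    apply Finset.sum_congr rfl
    intro l _
    simp only
    rw [Finset.sum_const, nsmul_eq_mul]
    ring
  rw [e1, e2]
  refine Finset.sum_nbij' (i := fun z => ⟨z.1 * z.2, z.1⟩) (j := fun z => ⟨z.2, z.1 / z.2⟩)
    ?_ ?_ ?_ ?_ ?_
  · rintro ⟨a, b⟩ hz
    rw [mem_sigma, mem_L, mem_L] at hz
    obtain ⟨⟨⟨ha1, ha2⟩, ha3⟩, ⟨hb1, hb2⟩, hb3⟩ := hz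
    simp only at ha1 ha2 ha3 hb1 hb2 hb3
    have ha0 : (0 : ℝ) < a := by exact_mod_cast ha1
    rw [mem_sigma, mem_L, Nat.mem_divisors]
    refine ⟨⟨⟨Nat.mul_pos ha1 hb1, ?_⟩, ?_⟩, dvd_mul_right _ _, ?_⟩
    · push_cast
      rw [le_div_iff₀ ha0] at hb2
      linarith
    · intro p hp hd
      rcases ((hP p hp).dvd_mul).1 hd with h | h
      · exact ha3 p hp h
      · exact hb3 p hp h
    · exact (Nat.mul_pos ha1 hb1).ne'
  · rintro ⟨l, a⟩ hz
    rw [mem_sigma, mem_L, Nat.mem_divisors] at hz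
    obtain ⟨⟨⟨hl1, hl2⟩, hl3⟩, hd, hl0⟩ := hz
    simp only at hl1 hl2 hl3 hd hl0
    have ha1 : 1 ≤ a := Nat.pos_of_dvd_of_pos hd hl1
    have ha0 : (0 : ℝ) < a := by exact_mod_cast ha1
    have hal : a ≤ l := Nat.le_of_dvd hl1 hd
    have hal' : (a : ℝ) ≤ l := by exact_mod_cast hal
    rw [mem_sigma, mem_L, mem_L]
    refine ⟨⟨⟨ha1, by linarith⟩, fun p hp h => hl3 p hp (h.trans hd)⟩, ⟨Nat.div_pos hal ha1, ?_⟩,
      fun p hp h => hl3 p hp (h.trans (Nat.div_dvd_of_dvd hd))⟩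
    simp only
    rw [Nat.cast_div hd ha0.ne']
    gcongr
  · rintro ⟨a, b⟩ hz
    rw [mem_sigma, mem_L, mem_L] at hz
    have ha1 : 0 < a := hz.1.1.1
    simp only
    rw [Nat.mul_div_cancel_left _ ha1]
  · rintro ⟨l, a⟩ hz
    rw [mem_sigma, mem_L, Nat.mem_divisors] at hz
    simp only
    rw [Nat.mul_div_cancel' hz.2.1]
  · rintro ⟨a, b⟩ hz
    simp only
    push_cast
    rw [one_div_mul_one_div]

end E1_

open E1_ in
theorem rou : ROU := by
  intro T w hT hw
  have hP : ∀ p ∈ AP w, p.Prime := fun p hp => (mem_filter.1 hp).2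
  have hP1 : ∀ p ∈ AP w, 1 ≤ p := fun p hp => (hP p hp).one_lt.le
  have hV : 0 ≤ VM w := by
    unfold VM
    apply Finset.prod_nonneg
    intro p hp
    have : (1 : ℝ) ≤ p := by exact_mod_cast hP1 p hp
    rw [sub_nonneg, div_le_one (by linarith)]
    exact this
  have h1 := G_prod Real.log (fun t ht => Real.log_nonneg ht)
    (fun s t hs hst => Real.log_le_log (by linarith) hst) T (AP w) hP1
  have h2 := base2 T hT
  have h3 := conv (AP w) hP T
  show _ ≤ ∑ l ∈ L (AP w) T, (l.divisors.card : ℝ) / l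
  rw [← h3]
  have h4 : ∀ a ∈ L (AP w) T, VM w * (Real.log (T / a) / a) ≤
      (1 / (a : ℝ)) * G (AP w) (fun _ => 1) (T / a) := by
    intro a ha
    obtain ⟨⟨ha1, ha2⟩, _⟩ := mem_L.1 ha
    have ha0 : (0 : ℝ) < a := by exact_mod_cast ha1
    have hTa : 1 ≤ T / a := by rw [le_div_iff₀ ha0]; linarith
    have h5 := G_prod (fun _ => (1 : ℝ)) (fun _ _ => zero_le_one) (fun _ _ _ _ => le_rfl) (T / a)
      (AP w) hP1
    have h6 := base1 (T / a) hTa
    have h7 : VM w * Real.log (T / a) ≤ G (AP w) (fun _ => 1) (T / a) :=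
      (mul_le_mul_of_nonneg_left h6 hV).trans h5
    calc VM w * (Real.log (T / a) / a) = (1 / (a : ℝ)) * (VM w * Real.log (T / a)) := by ring
      _ ≤ _ := mul_le_mul_of_nonneg_left h7 (by positivity)
  calc Real.log T ^ 2 / 2 * VM w ^ 2 = VM w * (VM w * (Real.log T ^ 2 / 2)) := by ring
    _ ≤ VM w * (VM w * G ∅ Real.log T) := by gcongr
    _ ≤ VM w * G (AP w) Real.log T := mul_le_mul_of_nonneg_left h1 hV
    _ = ∑ a ∈ L (AP w) T, VM w * (Real.log (T / a) / a) := by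
        unfold G; rw [Finset.mul_sum]
    _ ≤ _ := Finset.sum_le_sum h4

end Pool.Agent.H95R2.TI
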